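import Mathlib

/-!
# Polynomials in several variables with small derivatives

`nm F` is the sum of the absolute values of the coefficients. Bounds for values, derivatives and
restrictions to lines; a polynomial with small derivatives at a point has small coefficients.
-/

set_option autoImplicit false

namespace Pool.DICI

open MvPolynomial Finset

variable {n : ℕ}

/-- Polynomials in `n` variables. -/
abbrev PP (n : ℕ) : Type := MvPolynomial (Fin n) ℝ

/-- Sum of the absolute values of the coefficients. -/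
noncomputable def nm (F : PP n) : ℝ := ∑ μ ∈ F.support, |F.coeff μ|

/-- The degree of a monomial. -/
def dg (μ : Fin n →₀ ℕ) : ℕ := ∑ i, μ i

theorem sum_eq_dg (μ : Fin n →₀ ℕ) : (μ.sum fun _ e => e) = dg μ := by
  rw [Finsupp.sum_fintype _ _ (fun _ => rfl)]
  rfl

theorem dg_le {F : PP n} {d : ℕ} (h : F.totalDegree ≤ d) {μ : Fin n →₀ ℕ} (hμ : F.coeff μ ≠ 0) :
    dg μ ≤ d := by
  rw [← sum_eq_dg]
  exact (le_totalDegree (mem_support_iff.2 hμ)).trans h

theorem le_dg (μ : Fin n →₀ ℕ) (i : Fin n) : μ i ≤ dg μ :=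
  Finset.single_le_sum (f := fun i => μ i) (fun _ _ => Nat.zero_le _) (mem_univ i)

theorem deg_le_of {F : PP n} {d : ℕ} (h : ∀ μ, F.coeff μ ≠ 0 → dg μ ≤ d) : F.totalDegree ≤ d := by
  unfold totalDegree
  refine Finset.sup_le fun μ hμ => ?_
  show (μ.sum fun _ e => e) ≤ d
  rw [sum_eq_dg]
  exact h μ (mem_support_iff.1 hμ)

theorem nm_of_subset {F : PP n} {S : Finset (Fin n →₀ ℕ)} (h : F.support ⊆ S) :
    nm F = ∑ μ ∈ S, |F.coeff μ| := by
  unfold nm
  refine Finset.sum_subset h fun μ _ hμ => ?_
  rw [notMem_support_iff.1 hμ, abs_zero]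

theorem nm_nonneg (F : PP n) : 0 ≤ nm F := Finset.sum_nonneg fun μ _ => abs_nonneg _

theorem nm_add_le (F G : PP n) : nm (F + G) ≤ nm F + nm G := by
  classical
  rw [nm_of_subset (S := F.support ∪ G.support) (F := F + G) support_add,
    nm_of_subset (S := F.support ∪ G.support) (F := F) subset_union_left,
    nm_of_subset (S := F.support ∪ G.support) (F := G) subset_union_right,
    ← Finset.sum_add_distrib]
  refine Finset.sum_le_sum fun μ _ => ?_
  rw [coeff_add]
  exact abs_add_le _ _

theorem nm_zero : nm (0 : PP n) = 0 := by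
  unfold nm
  simp

theorem coeff_le_nm (F : PP n) (μ : Fin n →₀ ℕ) : |F.coeff μ| ≤ nm F := by
  by_cases h : μ ∈ F.support
  · exact Finset.single_le_sum (f := fun μ => |F.coeff μ|) (fun μ _ => abs_nonneg _) h
  · rw [notMem_support_iff.1 h, abs_zero]
    exact nm_nonneg F

theorem nm_C (c : ℝ) : nm (C c : PP n) = |c| := by
  classical
  rw [nm_of_subset (S := {0}) (F := (C c : PP n)) support_monomial_subset, Finset.sum_singleton,
    coeff_C, if_pos rfl]

theorem eval_eq'' (x : Fin n → ℝ) (F : PP n) :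
    eval x F = ∑ μ ∈ F.support, F.coeff μ * ∏ i, x i ^ μ i := eval_eq' x F

theorem abs_prod_le {K : ℝ} (hK : 1 ≤ K) {x : Fin n → ℝ} (hx : ∀ i, |x i| ≤ K)
    (μ : Fin n →₀ ℕ) : |∏ i, x i ^ μ i| ≤ K ^ dg μ := by
  rw [Finset.abs_prod]
  unfold dg
  rw [← Finset.prod_pow_eq_pow_sum]
  refine Finset.prod_le_prod (fun i _ => abs_nonneg _) fun i _ => ?_
  rw [abs_pow]
  exact pow_le_pow_left₀ (abs_nonneg _) (hx i) _

/-- Values. -/
theorem abs_eval_le {K : ℝ} (hK : 1 ≤ K) {x : Fin n → ℝ} (hx : ∀ i, |x i| ≤ K) {F : PP n}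
    {d : ℕ} (hd : F.totalDegree ≤ d) : |eval x F| ≤ K ^ d * nm F := by
  rw [eval_eq'']
  refine (Finset.abs_sum_le_sum_abs _ _).trans ?_
  unfold nm
  rw [Finset.mul_sum]
  refine Finset.sum_le_sum fun μ hμ => ?_
  rw [abs_mul, mul_comm]
  refine mul_le_mul_of_nonneg_right ?_ (abs_nonneg _)
  exact (abs_prod_le hK hx μ).trans (pow_le_pow_right₀ hK (dg_le hd (mem_support_iff.1 hμ)))

/-! ### Derivatives -/

theorem totalDegree_pd {F : PP n} {d : ℕ} (hd : F.totalDegree ≤ d) (i : Fin n) :
    (pderiv i F).totalDegree ≤ d - 1 := by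
  refine deg_le_of fun μ hμ => ?_
  rw [coeff_pderiv] at hμ
  have h1 : F.coeff (μ + Finsupp.single i 1) ≠ 0 := left_ne_zero_of_mul hμ
  have h2 := dg_le hd h1
  have h3 : dg (μ + Finsupp.single i 1) = dg μ + 1 := by
    unfold dg
    simp only [Finsupp.add_apply]
    rw [Finset.sum_add_distrib]
    congr 1
    rw [Finset.sum_eq_single i (fun j _ hj => by rw [Finsupp.single_eq_of_ne hj])
      (fun h => absurd (mem_univ i) h)]
    simp
  omega

theorem totalDegree_pd' {F : PP n} {d : ℕ} (hd : F.totalDegree ≤ d) (i : Fin n) :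
    (pderiv i F).totalDegree ≤ d := (totalDegree_pd hd i).trans (Nat.sub_le _ _)

theorem nm_pd {F : PP n} {d : ℕ} (hd : F.totalDegree ≤ d) (i : Fin n) :
    nm (pderiv i F) ≤ d * nm F := by
  classical
  unfold nm
  rw [Finset.mul_sum]
  have h1 : ∑ μ ∈ (pderiv i F).support, |(pderiv i F).coeff μ| ≤
      ∑ μ ∈ (pderiv i F).support, d * |F.coeff (μ + Finsupp.single i 1)| := by
    refine Finset.sum_le_sum fun μ hμ => ?_
    have h0 := mem_support_iff.1 hμ
    rw [coeff_pderiv] at h0 ⊢
    have h1 : F.coeff (μ + Finsupp.single i 1) ≠ 0 := left_ne_zero_of_mul h0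
    have h2 := (le_dg (μ + Finsupp.single i 1) i).trans (dg_le hd h1)
    have h3 : (μ + Finsupp.single i 1 : Fin n →₀ ℕ) i = μ i + 1 := by simp
    rw [h3] at h2
    have h4 : |(μ i : ℝ) + 1| ≤ d := by
      rw [abs_of_nonneg (by positivity)]
      exact_mod_cast h2
    rw [abs_mul, mul_comm]
    exact mul_le_mul_of_nonneg_right h4 (abs_nonneg _)
  refine h1.trans ?_
  rw [← Finset.sum_image (s := (pderiv i F).support) (g := fun μ => μ + Finsupp.single i 1)
    (f := fun ν => (d : ℝ) * |F.coeff ν|) (fun a _ b _ h => by simpa using h)]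
  refine Finset.sum_le_sum_of_subset_of_nonneg ?_ fun μ _ _ => by positivity
  intro ν hν
  obtain ⟨μ, hμ, rfl⟩ := Finset.mem_image.1 hν
  have h0 := mem_support_iff.1 hμ
  rw [coeff_pderiv] at h0
  exact mem_support_iff.2 (left_ne_zero_of_mul h0)

/-- The coefficients which contain the variable `i` are bounded by those of the derivative. -/
theorem sum_le_pd (F : PP n) (i : Fin n) :
    ∑ μ ∈ F.support with μ i ≠ 0, |F.coeff μ| ≤ nm (pderiv i F) := by
  classical
  have h1 : ∑ μ ∈ F.support with μ i ≠ 0, |F.coeff μ| ≤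
      ∑ μ ∈ F.support with μ i ≠ 0, |(pderiv i F).coeff (μ - Finsupp.single i 1)| := by
    refine Finset.sum_le_sum fun μ hμ => ?_
    have h0 := (Finset.mem_filter.1 hμ).2
    have e : μ - Finsupp.single i 1 + Finsupp.single i 1 = μ :=
      Finsupp.sub_add_single_one_cancel h0
    rw [coeff_pderiv, e, abs_mul]
    have h2 : 1 ≤ |(((μ - Finsupp.single i 1 : Fin n →₀ ℕ) i : ℕ) : ℝ) + 1| := by
      rw [abs_of_nonneg (by positivity)]
      have : (0 : ℝ) ≤ ((μ - Finsupp.single i 1 : Fin n →₀ ℕ) i : ℕ) := Nat.cast_nonneg _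
      linarith
    nlinarith [abs_nonneg (F.coeff μ)]
  refine h1.trans ?_
  rw [← Finset.sum_image (s := F.support.filter fun μ => μ i ≠ 0)
    (g := fun μ => μ - Finsupp.single i 1)
    (f := fun ν => |(pderiv i F).coeff ν|) (fun a ha b hb h => ?_)]
  · rw [nm_of_subset (F := pderiv i F) (S := (pderiv i F).support ∪
      ((F.support.filter fun μ => μ i ≠ 0).image fun μ => μ - Finsupp.single i 1))
      subset_union_left]
    exact Finset.sum_le_sum_of_subset_of_nonneg subset_union_right fun μ _ _ => abs_nonneg _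
  · have ha' := (Finset.mem_filter.1 ha).2
    have hb' := (Finset.mem_filter.1 hb).2
    have e1 := Finsupp.sub_add_single_one_cancel ha'
    have e2 := Finsupp.sub_add_single_one_cancel hb'
    rw [← e1, ← e2]
    simp only at h
    rw [h]

/-- The coefficients are bounded by those of the derivatives and the value at one point. -/
theorem nm_le_of_pd {K : ℝ} (hK : 1 ≤ K) {x : Fin n → ℝ} (hx : ∀ i, |x i| ≤ K) {F : PP n}
    {d : ℕ} (hd : F.totalDegree ≤ d) {η : ℝ} (h : ∀ i, nm (pderiv i F) ≤ η) :
    nm F ≤ |eval x F| + (K ^ d + 1) * (n * η) := by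
  classical
  obtain ⟨G, hG⟩ : ∃ G : PP n, G = F - C (F.coeff 0) := ⟨_, rfl⟩
  have hGc : ∀ μ, μ ≠ 0 → G.coeff μ = F.coeff μ := by
    intro μ hμ
    rw [hG, coeff_sub, coeff_C, if_neg (Ne.symm hμ), sub_zero]
  have hG0 : G.coeff 0 = 0 := by
    rw [hG, coeff_sub, coeff_C, if_pos rfl, sub_self]
  have hGs : ∀ μ ∈ G.support, μ ∈ F.support ∧ μ ≠ 0 := by
    intro μ hμ
    have h1 := mem_support_iff.1 hμ
    have h2 : μ ≠ 0 := by
      rintro rfl
      exact h1 hG0
    rw [hGc μ h2] at h1
    exact ⟨mem_support_iff.2 h1, h2⟩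
  have hGn : nm G ≤ n * η := by
    have h1 : nm G ≤ ∑ i : Fin n, ∑ μ ∈ F.support with μ i ≠ 0, |F.coeff μ| := by
      unfold nm
      calc ∑ μ ∈ G.support, |G.coeff μ| ≤
          ∑ μ ∈ G.support, ∑ i : Fin n, (if μ i ≠ 0 then |F.coeff μ| else 0) := by
            refine Finset.sum_le_sum fun μ hμ => ?_
            obtain ⟨-, h2⟩ := hGs μ hμ
            rw [hGc μ h2]
            obtain ⟨i, hi⟩ : ∃ i, μ i ≠ 0 := by
              by_contra hcon
              push Not at hcon
              exact h2 (Finsupp.ext hcon)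
            calc |F.coeff μ| = (if μ i ≠ 0 then |F.coeff μ| else 0) := by rw [if_pos hi]
              _ ≤ _ := Finset.single_le_sum
                (f := fun i => if μ i ≠ 0 then |F.coeff μ| else 0)
                (fun j _ => by split_ifs <;> positivity) (mem_univ i)
        _ ≤ ∑ μ ∈ F.support, ∑ i : Fin n, (if μ i ≠ 0 then |F.coeff μ| else 0) :=
            Finset.sum_le_sum_of_subset_of_nonneg (fun μ hμ => (hGs μ hμ).1) fun μ _ _ =>
              Finset.sum_nonneg fun j _ => by split_ifs <;> positivity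
        _ = _ := by
            rw [Finset.sum_comm]
            refine Finset.sum_congr rfl fun i _ => ?_
            rw [Finset.sum_filter]
    refine h1.trans ?_
    calc _ ≤ ∑ _i : Fin n, η := Finset.sum_le_sum fun i _ => (sum_le_pd F i).trans (h i)
      _ = n * η := by rw [Finset.sum_const, card_univ, Fintype.card_fin, nsmul_eq_mul]
  have hGd : G.totalDegree ≤ d := deg_le_of fun μ hμ => by
    have h1 := hGs μ (mem_support_iff.2 hμ)
    exact dg_le hd (mem_support_iff.1 h1.1)
  have e1 : F = C (F.coeff 0) + G := by rw [hG]; ring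
  have h2 : nm F ≤ |F.coeff 0| + nm G := by
    conv_lhs => rw [e1]
    refine (nm_add_le _ _).trans ?_
    rw [nm_C]
  have h3 : |F.coeff 0| ≤ |eval x F| + K ^ d * nm G := by
    have e2 : F.coeff 0 = eval x F - eval x G := by
      conv_rhs => rw [e1]
      simp
    rw [e2]
    have := abs_eval_le hK hx hGd
    exact (abs_sub _ _).trans (by linarith)
  have h4 : (0 : ℝ) ≤ K ^ d := by positivity
  have h5 : K ^ d * nm G ≤ K ^ d * (n * η) := mul_le_mul_of_nonneg_left hGn h4
  nlinarith

/-! ### Restriction to lines -/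

theorem hasDerivAt_line (F : PP n) (x v : Fin n → ℝ) (p : ℝ) :
    HasDerivAt (fun p : ℝ => eval (fun i => x i + p * v i) F)
      (∑ i, v i * eval (fun i => x i + p * v i) (pderiv i F)) p := by
  induction F using MvPolynomial.induction_on with
  | C a => simpa using hasDerivAt_const p a
  | add P Q hP hQ =>
    have := hP.add hQ
    simp only [map_add, mul_add, Finset.sum_add_distrib]
    exact this
  | mul_X P j hP =>
    have h1 : HasDerivAt (fun p : ℝ => x j + p * v j) (v j) p := by
      simpa using ((hasDerivAt_id p).mul_const (v j)).const_add (x j)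
    have h2 := hP.mul h1
    have e : ∑ i, v i * eval (fun i => x i + p * v i) (pderiv i (P * X j)) =
        (∑ i, v i * eval (fun i => x i + p * v i) (pderiv i P)) * (x j + p * v j) +
        eval (fun i => x i + p * v i) P * v j := by
      have e1 : ∀ i, v i * eval (fun i => x i + p * v i) (pderiv i (P * X j)) =
          v i * eval (fun i => x i + p * v i) (pderiv i P) * (x j + p * v j) +
          (if i = j then eval (fun i => x i + p * v i) P * v j else 0) := by
        intro i
        rw [pderiv_mul, map_add, map_mul, map_mul, eval_X]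
        by_cases h : i = j
        · subst h
          rw [pderiv_X_self, if_pos rfl, map_one]
          ring
        · rw [pderiv_X_of_ne (Ne.symm h), if_neg h, map_zero]
          ring
      rw [Finset.sum_congr rfl fun i _ => e1 i, Finset.sum_add_distrib, ← Finset.sum_mul,
        Finset.sum_ite_eq' univ j, if_pos (mem_univ j)]
    rw [e]
    refine h2.congr_of_eventuallyEq (Filter.Eventually.of_forall fun q => ?_)
    simp

/-- The restriction to a line. -/
noncomputable def lp (x v : Fin n → ℝ) (F : PP n) : Polynomial ℝ :=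
  aeval (fun i => Polynomial.C (x i) + Polynomial.X * Polynomial.C (v i)) F

theorem eval_lp (x v : Fin n → ℝ) (F : PP n) (p : ℝ) :
    (lp x v F).eval p = eval (fun i => x i + p * v i) F := by
  unfold lp
  induction F using MvPolynomial.induction_on with
  | C a => simp
  | add P Q hP hQ => rw [map_add, Polynomial.eval_add, hP, hQ, map_add]
  | mul_X P j hP =>
    rw [map_mul, Polynomial.eval_mul, hP, map_mul]
    simp
    exact Or.inl (mul_comm _ _)

theorem natDegree_lp {F : PP n} {d : ℕ} (hd : F.totalDegree ≤ d) (x v : Fin n → ℝ) :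
    (lp x v F).natDegree ≤ d := by
  have h := aeval_natDegree_le F hd
    (fun i => Polynomial.C (x i) + Polynomial.X * Polynomial.C (v i)) (n := 1) (fun i => by
      compute_degree)
  rw [mul_one] at h
  exact h

theorem deriv_lp (x v : Fin n → ℝ) (F : PP n) (p : ℝ) :
    (lp x v F).derivative.eval p = ∑ i, v i * eval (fun i => x i + p * v i) (pderiv i F) := by
  have h1 := (lp x v F).hasDerivAt p
  have h2 := hasDerivAt_line F x v p
  have e : (fun p => (lp x v F).eval p) = fun p : ℝ => eval (fun i => x i + p * v i) F := by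
    funext q
    exact eval_lp x v F q
  rw [e] at h1
  exact h1.unique h2

theorem coeff_one_lp (x v : Fin n → ℝ) (F : PP n) :
    (lp x v F).coeff 1 = ∑ i, v i * eval x (pderiv i F) := by
  have h1 := deriv_lp x v F 0
  have e2 : (fun i => x i + 0 * v i) = x := by
    funext i
    ring
  rw [e2, ← Polynomial.coeff_zero_eq_eval_zero, Polynomial.coeff_derivative] at h1
  simpa using h1

/-- Lipschitz bound. -/
theorem eval_sub_le {K r : ℝ} (hK : 1 ≤ K) {x y : Fin n → ℝ} (hx : ∀ i, |x i| ≤ K)
    (hy : ∀ i, |y i| ≤ K) (hxy : ∀ i, |y i - x i| ≤ r) {F : PP n} {d : ℕ}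
    (hd : F.totalDegree ≤ d) : |eval y F - eval x F| ≤ n * (r * (K ^ d * (d * nm F))) := by
  obtain ⟨v, hv⟩ : ∃ v : Fin n → ℝ, v = fun i => y i - x i := ⟨_, rfl⟩
  obtain ⟨f, hf⟩ : ∃ f : ℝ → ℝ, f = fun p => eval (fun i => x i + p * v i) F := ⟨_, rfl⟩
  have hd1 : ∀ p, HasDerivAt f (∑ i, v i * eval (fun i => x i + p * v i) (pderiv i F)) p :=
    fun p => by rw [hf]; exact hasDerivAt_line F x v p
  obtain ⟨c, hc, he⟩ := exists_hasDerivAt_eq_slope f
    (fun p => ∑ i, v i * eval (fun i => x i + p * v i) (pderiv i F)) (zero_lt_one (α := ℝ))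
    (fun p _ => (hd1 p).continuousAt.continuousWithinAt) (fun p _ => hd1 p)
  have e0 : f 0 = eval x F := by
    rw [hf]
    simp
  have e1 : f 1 = eval y F := by
    rw [hf, hv]
    simp
  rw [e0, e1, sub_zero, div_one] at he
  rw [← he]
  refine (Finset.abs_sum_le_sum_abs _ _).trans ?_
  have hr : 0 ≤ n * (r * (K ^ d * (d * nm F))) ∨ n = 0 := by
    rcases Nat.eq_zero_or_pos n with h | h
    · exact Or.inr h
    · left
      have hr0 : 0 ≤ r := (abs_nonneg _).trans (hxy ⟨0, h⟩)
      have := nm_nonneg F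
      positivity
  have key : ∀ i, |v i * eval (fun i => x i + c * v i) (pderiv i F)| ≤
      r * (K ^ d * (d * nm F)) := by
    intro i
    have h1 : |v i| ≤ r := by rw [hv]; exact hxy i
    have h2 : ∀ j, |x j + c * v j| ≤ K := by
      intro j
      have a1 := abs_le.1 (hx j)
      have a2 := abs_le.1 (hy j)
      have e : x j + c * v j = (1 - c) * x j + c * y j := by rw [hv]; ring
      rw [e, abs_le]
      have c0 := hc.1.le
      have c1 := hc.2.le
      constructor <;> nlinarith
    have h3 := abs_eval_le hK h2 (totalDegree_pd' hd i)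
    have h4 := nm_pd hd i
    rw [abs_mul]
    refine mul_le_mul h1 (h3.trans ?_) (abs_nonneg _) ((abs_nonneg _).trans h1)
    exact mul_le_mul_of_nonneg_left h4 (by positivity)
  calc _ ≤ ∑ _i : Fin n, r * (K ^ d * (d * nm F)) := Finset.sum_le_sum fun i _ => key i
    _ = _ := by rw [Finset.sum_const, card_univ, Fintype.card_fin, nsmul_eq_mul]

/-! ### Polynomials which do not contain a variable -/

/-- The polynomial does not contain the variable `j`. -/
def Free (j : Fin n) (F : PP n) : Prop := ∀ μ, F.coeff μ ≠ 0 → μ j = 0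

theorem Free.eval {j : Fin n} {F : PP n} (h : Free j F) {x y : Fin n → ℝ}
    (hxy : ∀ i, i ≠ j → x i = y i) : eval x F = eval y F := by
  rw [eval_eq'', eval_eq'']
  refine Finset.sum_congr rfl fun μ hμ => ?_
  congr 1
  refine Finset.prod_congr rfl fun i _ => ?_
  by_cases hi : i = j
  · rw [hi, h μ (mem_support_iff.1 hμ), pow_zero, pow_zero]
  · rw [hxy i hi]

theorem Free.pd {j : Fin n} {F : PP n} (h : Free j F) (i : Fin n) : Free j (pderiv i F) := by
  intro μ hμ
  rw [coeff_pderiv] at hμ
  have h1 := h _ (left_ne_zero_of_mul hμ)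
  simp at h1
  exact h1.1

theorem Free.pd_self {j : Fin n} {F : PP n} (h : Free j F) : pderiv j F = 0 := by
  ext μ
  rw [coeff_pderiv, coeff_zero]
  by_contra hcon
  have h1 := h _ (left_ne_zero_of_mul hcon)
  simp at h1

/-- The part which does not contain the variable `j`. -/
noncomputable def fr (j : Fin n) (F : PP n) : PP n :=
  ∑ μ ∈ F.support with μ j = 0, monomial μ (F.coeff μ)

theorem coeff_fr (j : Fin n) (F : PP n) (μ : Fin n →₀ ℕ) :
    (fr j F).coeff μ = if μ j = 0 then F.coeff μ else 0 := by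
  classical
  unfold fr
  rw [coeff_sum]
  simp only [coeff_monomial]
  rw [Finset.sum_ite_eq' _ μ]
  by_cases h : μ j = 0
  · rw [if_pos h]
    by_cases h2 : μ ∈ F.support
    · rw [if_pos (Finset.mem_filter.2 ⟨h2, h⟩)]
    · rw [if_neg fun hc => h2 (Finset.mem_filter.1 hc).1, notMem_support_iff.1 h2]
  · rw [if_neg h, if_neg (fun hc : μ ∈ F.support.filter (fun μ => μ j = 0) =>
      h (Finset.mem_filter.1 hc).2)]

theorem free_fr (j : Fin n) (F : PP n) : Free j (fr j F) := by
  intro μ hμ
  rw [coeff_fr] at hμ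
  by_contra h
  rw [if_neg h] at hμ
  exact hμ rfl

theorem totalDegree_fr {F : PP n} {d : ℕ} (hd : F.totalDegree ≤ d) (j : Fin n) :
    (fr j F).totalDegree ≤ d := by
  refine deg_le_of fun μ hμ => ?_
  rw [coeff_fr] at hμ
  split_ifs at hμ
  · exact dg_le hd hμ
  · exact absurd rfl hμ

theorem nm_fr_le (j : Fin n) (F : PP n) : nm (fr j F) ≤ nm F := by
  have hs : (fr j F).support ⊆ F.support := by
    intro μ hμ
    have h1 := mem_support_iff.1 hμ
    rw [coeff_fr] at h1
    split_ifs at h1
    · exact mem_support_iff.2 h1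
    · exact absurd rfl h1
  rw [nm_of_subset hs]
  unfold nm
  refine Finset.sum_le_sum fun μ _ => ?_
  rw [coeff_fr]
  split_ifs
  · exact le_rfl
  · rw [abs_zero]
    exact abs_nonneg _

theorem nm_sub_fr (j : Fin n) (F : PP n) : nm (F - fr j F) ≤ nm (pderiv j F) := by
  classical
  refine le_trans (le_of_eq ?_) (sum_le_pd F j)
  have hs : (F - fr j F).support ⊆ F.support := by
    intro μ hμ
    have h1 := mem_support_iff.1 hμ
    rw [coeff_sub, coeff_fr] at h1
    refine mem_support_iff.2 fun h0 => h1 ?_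
    rw [h0]
    simp
  rw [nm_of_subset hs, Finset.sum_filter]
  refine Finset.sum_congr rfl fun μ _ => ?_
  rw [coeff_sub, coeff_fr]
  by_cases h : μ j = 0
  · rw [if_pos h, sub_self, abs_zero, if_neg (not_not.2 h)]
  · rw [if_neg h, sub_zero, if_pos h]

end Pool.DICI
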