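import Pool.Agent.H18.DICI.Tan

/-!
# The coefficients of the tangent planes
-/

set_option autoImplicit false

namespace Pool.DICI

open MvPolynomial Finset

variable {Ω U V : Type}

/-- Coefficients of the plane through the line with the slopes of the tangent plane. -/
noncomputable def Idp.co (X : Idp Ω U V) (F : Ω → P4) (ω : Ω) : Fin 4 → ℝ :=
  ![X.Y ω 2 - X.sl F 1 ω * X.Y ω 0 - X.sl F 2 ω * X.Y ω 1,
    X.D ω 2 - X.sl F 1 ω * X.D ω 0 - X.sl F 2 ω * X.D ω 1, X.sl F 1 ω, X.sl F 2 ω]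

open Idp

variable {X : Idp Ω U V} {A B : Ω → Prop} {d : ℕ} {K r σ W Λ θ κ : ℝ} {F : Ω → P4}

namespace Tn

theorem up (H : Tn X A B d K r σ W Λ θ κ F) {a b : ℕ} (hab : a < b) :
    600 * (W ^ a * er r Λ θ κ) ≤ W ^ b * er r Λ θ κ := by
  have h0 := H.er0
  have hW := H.hB.W0
  have hW6 := H.hB.W600
  obtain ⟨k, rfl⟩ : ∃ k, b = k + 1 := ⟨b - 1, by omega⟩
  have h1 := pow_one_term hW6 h0 (show a ≤ k by omega)
  have h2 : 0 ≤ W ^ k * er r Λ θ κ := by positivity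
  calc _ ≤ 600 * (W ^ k * er r Λ θ κ) := by linarith
    _ ≤ W * (W ^ k * er r Λ θ κ) := mul_le_mul_of_nonneg_right hW6 h2
    _ = _ := by ring

/-- Velocity of the plane at the point of a sample. -/
theorem co1 (H : Tn X A B d K r σ W Λ θ κ F) {ω ω₀ : Ω} (hω : X.nx B σ d ω)
    (hω₀ : X.nx B σ d ω₀) (hw : X.wn ω₀ = X.wn ω) :
    |(X.D ω₀ 2 - X.sl F 1 ω₀ * X.D ω₀ 0 - X.sl F 2 ω₀ * X.D ω₀ 1) - X.sl F 0 ω| ≤
      W ^ (4 * d + 11) * er r Λ θ κ := by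
  have hωA := H.hBA _ (nx_sub hω)
  have hωA₀ := H.hBA _ (nx_sub hω₀)
  obtain ⟨h1, h2⟩ := H.sl_wn hω hω₀ hw
  have h3 := H.sl_line hω.1.1
  rw [(H.h.wn ω ω₀ hωA hωA₀ hw).2]
  have hD0 := H.h.D ω hωA 0
  have hD1 := H.h.D ω hωA 1
  have hK := H.hB.K0
  obtain ⟨b, hb⟩ : ∃ b, b = W ^ (4 * d + 10) * er r Λ θ κ := ⟨_, rfl⟩
  rw [← hb] at h1 h2
  have hb0 : 0 ≤ b := (abs_nonneg _).trans h1
  have m1 : |(X.sl F 1 ω₀ - X.sl F 1 ω) * X.D ω 0| ≤ b * K := by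
    rw [abs_mul]
    exact mul_le_mul h1 hD0 (abs_nonneg _) hb0
  have m2 : |(X.sl F 2 ω₀ - X.sl F 2 ω) * X.D ω 1| ≤ b * K := by
    rw [abs_mul]
    exact mul_le_mul h2 hD1 (abs_nonneg _) hb0
  have e : (X.D ω 2 - X.sl F 1 ω₀ * X.D ω 0 - X.sl F 2 ω₀ * X.D ω 1) - X.sl F 0 ω =
      (X.D ω 2 - X.sl F 0 ω - X.sl F 1 ω * X.D ω 0 - X.sl F 2 ω * X.D ω 1) -
      (X.sl F 1 ω₀ - X.sl F 1 ω) * X.D ω 0 - (X.sl F 2 ω₀ - X.sl F 2 ω) * X.D ω 1 := by ring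
  rw [e]
  have t1 := abs_sub ((X.D ω 2 - X.sl F 0 ω - X.sl F 1 ω * X.D ω 0 - X.sl F 2 ω * X.D ω 1) -
      (X.sl F 1 ω₀ - X.sl F 1 ω) * X.D ω 0) ((X.sl F 2 ω₀ - X.sl F 2 ω) * X.D ω 1)
  have t2 := abs_sub (X.D ω 2 - X.sl F 0 ω - X.sl F 1 ω * X.D ω 0 - X.sl F 2 ω * X.D ω 1)
      ((X.sl F 1 ω₀ - X.sl F 1 ω) * X.D ω 0)
  have h5 : 600 * (b * K) ≤ W * b := by
    have := H.hB.K600
    nlinarith
  have e5 : W * b = W ^ (4 * d + 11) * er r Λ θ κ := by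
    rw [hb]
    ring
  have h6 := H.up (show d + 2 < 4 * d + 11 by omega)
  rw [e5] at h5
  have h7 : 0 ≤ W ^ (4 * d + 11) * er r Λ θ κ := mul_nonneg (by have := H.hB.W0; positivity) H.er0
  linarith

/-- **Closedness.** The coefficients of the windows of two samples with the same point. -/
theorem co_pt (H : Tn X A B d K r σ W Λ θ κ F) {ω ω' ω₀ ω₀' : Ω} (hω : X.nx B σ d ω)
    (hω' : X.nx B σ d ω') (hω₀ : X.nx B σ d ω₀) (hω₀' : X.nx B σ d ω₀')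
    (hw : X.wn ω₀ = X.wn ω) (hw' : X.wn ω₀' = X.wn ω') (hp : X.pt ω' = X.pt ω) (i : Fin 4) :
    |X.co F ω₀' i - X.co F ω₀ i| ≤ W ^ (4 * d + 14) * er r Λ θ κ := by
  have hωB := nx_sub hω
  have hωB' := nx_sub hω'
  have hωA := H.hBA _ hωB
  have hωA' := H.hBA _ hωB'
  have hωA₀ := H.hBA _ (nx_sub hω₀)
  have hωA₀' := H.hBA _ (nx_sub hω₀')
  have hW := H.hB.W0
  have hK := H.hB.K0
  have hE := H.er0
  obtain ⟨E, hEe⟩ : ∃ E, E = er r Λ θ κ := ⟨_, rfl⟩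
  have hE0 : 0 ≤ E := by rw [hEe]; exact hE
  -- slopes
  have s1 : |X.sl F 1 ω₀' - X.sl F 1 ω₀| ≤ W ^ (4 * d + 11) * E ∧
      |X.sl F 2 ω₀' - X.sl F 2 ω₀| ≤ W ^ (4 * d + 11) * E := by
    obtain ⟨a1, a2⟩ := H.sl_wn hω hω₀ hw
    obtain ⟨b1, b2⟩ := H.sl_wn hω' hω₀' hw'
    have c1 := H.sl_pt 1 hωB hωB' hp
    have c2 := H.sl_pt 2 hωB hωB' hp
    have u1 := H.up (show 4 * d + 10 < 4 * d + 11 by omega)
    have u2 := H.up (show 2 * d + 4 < 4 * d + 11 by omega)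
    rw [← hEe] at a1 a2 b1 b2 c1 c2 u1 u2
    have tri : ∀ x₀' x' x x₀ : ℝ, |x₀' - x₀| ≤ |x₀' - x'| + |x' - x| + |x₀ - x| := by
      intro x₀' x' x x₀
      have e : x₀' - x₀ = (x₀' - x') + (x' - x) - (x₀ - x) := by ring
      rw [e]
      have t1 := abs_sub ((x₀' - x') + (x' - x)) (x₀ - x)
      have t2 := abs_add_le (x₀' - x') (x' - x)
      linarith
    have p0 : 0 ≤ W ^ (4 * d + 10) * E := by positivity
    have p1 : 0 ≤ W ^ (2 * d + 4) * E := by positivity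
    constructor
    · refine (tri _ (X.sl F 1 ω') (X.sl F 1 ω) _).trans ?_
      linarith
    · refine (tri _ (X.sl F 2 ω') (X.sl F 2 ω) _).trans ?_
      linarith
  obtain ⟨s1, s2⟩ := s1
  -- velocity
  have v1 : |(X.D ω₀' 2 - X.sl F 1 ω₀' * X.D ω₀' 0 - X.sl F 2 ω₀' * X.D ω₀' 1) -
      (X.D ω₀ 2 - X.sl F 1 ω₀ * X.D ω₀ 0 - X.sl F 2 ω₀ * X.D ω₀ 1)| ≤ W ^ (4 * d + 12) * E := by
    have a1 := H.co1 hω hω₀ hw
    have a2 := H.co1 hω' hω₀' hw'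
    have a3 := H.sl_pt 0 hωB hωB' hp
    have u1 := H.up (show 4 * d + 11 < 4 * d + 12 by omega)
    have u2 := H.up (show 2 * d + 4 < 4 * d + 12 by omega)
    rw [← hEe] at a1 a2 a3 u1 u2
    have p0 : 0 ≤ W ^ (4 * d + 11) * E := by positivity
    have p1 : 0 ≤ W ^ (2 * d + 4) * E := by positivity
    have tri : ∀ x₀' x' x x₀ : ℝ, |x₀' - x₀| ≤ |x₀' - x'| + |x' - x| + |x₀ - x| := by
      intro x₀' x' x x₀
      have e : x₀' - x₀ = (x₀' - x') + (x' - x) - (x₀ - x) := by ring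
      rw [e]
      have t1 := abs_sub ((x₀' - x') + (x' - x)) (x₀ - x)
      have t2 := abs_add_le (x₀' - x') (x' - x)
      linarith
    refine (tri _ (X.sl F 0 ω') (X.sl F 0 ω) _).trans ?_
    linarith
  -- sizes of the slopes
  have hΛ := H.hΛ
  have hκ := H.hκ
  have hκ1 := H.hκ1
  have hr0 := H.h.r0
  have hθ := H.hθ
  have sz : ∀ j, |X.sl F j ω₀| * r ≤ W ^ (d + 1) * E := by
    intro j
    have a1 := gr_le H.hB H.h H.hBA H.hF j (nx_sub hω₀)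
    have a2 := H.hg ω₀ (nx_sub hω₀)
    have a3 : |X.sl F j ω₀| ≤ W ^ (d + 1) * Λ / κ := by
      unfold Idp.sl
      rw [abs_neg, abs_div]
      exact div_le_div₀ ((abs_nonneg _).trans a1) a1 hκ a2
    have a4 : r * Λ / κ ≤ E := by
      rw [hEe]
      refine (H.k2 H.rL).trans (le_trans ?_ H.le_er2)
      refine div_le_div_of_nonneg_right ?_ (by positivity)
      linarith
    calc |X.sl F j ω₀| * r ≤ W ^ (d + 1) * Λ / κ * r := mul_le_mul_of_nonneg_right a3 hr0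
      _ = W ^ (d + 1) * (r * Λ / κ) := by ring
      _ ≤ _ := mul_le_mul_of_nonneg_left a4 (by positivity)
  -- positions
  have hs := H.h.spt ω ω' hωA hωA' hp
  have hy := H.h.ypt ω ω' hωA hωA' hp
  have hs1 := H.h.s1 ω hωA
  obtain ⟨y₀, dd₀⟩ := H.h.wn ω ω₀ hωA hωA₀ hw
  obtain ⟨y₀', dd₀'⟩ := H.h.wn ω' ω₀' hωA' hωA₀' hw'
  have pb : ∀ j, |X.Y ω' j + X.s ω * X.D ω' j| ≤ 2 * K := by
    intro j
    have a1 := H.h.Y ω' hωA' j
    have a2 := H.h.D ω' hωA' j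
    have a3 : |X.s ω * X.D ω' j| ≤ 1 * K := by
      rw [abs_mul]
      exact mul_le_mul hs1 a2 (abs_nonneg _) zero_le_one
    exact (abs_add_le _ _).trans (by linarith)
  have c0 : |(X.Y ω₀' 2 - X.sl F 1 ω₀' * X.Y ω₀' 0 - X.sl F 2 ω₀' * X.Y ω₀' 1) -
      (X.Y ω₀ 2 - X.sl F 1 ω₀ * X.Y ω₀ 0 - X.sl F 2 ω₀ * X.Y ω₀ 1)| ≤ W ^ (4 * d + 13) * E := by
    have v1' := v1
    rw [dd₀, dd₀'] at v1'
    rw [y₀, y₀']
    obtain ⟨u, hu⟩ : ∃ u, u = W ^ (4 * d + 11) * E := ⟨_, rfl⟩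
    rw [← hu] at s1 s2
    have hu0 : 0 ≤ u := (abs_nonneg _).trans s1
    have m1 : |(X.sl F 1 ω₀' - X.sl F 1 ω₀) * (X.Y ω' 0 + X.s ω * X.D ω' 0)| ≤ u * (2 * K) := by
      rw [abs_mul]
      exact mul_le_mul s1 (pb 0) (abs_nonneg _) hu0
    have m2 : |(X.sl F 2 ω₀' - X.sl F 2 ω₀) * (X.Y ω' 1 + X.s ω * X.D ω' 1)| ≤ u * (2 * K) := by
      rw [abs_mul]
      exact mul_le_mul s2 (pb 1) (abs_nonneg _) hu0
    have m3 : |X.sl F 1 ω₀ * ((X.Y ω' 0 + X.s ω * X.D ω' 0) - (X.Y ω 0 + X.s ω * X.D ω 0))| ≤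
        W ^ (d + 1) * E := by
      rw [abs_mul]
      exact (mul_le_mul_of_nonneg_left (hy 0) (abs_nonneg _)).trans (sz 1)
    have m4 : |X.sl F 2 ω₀ * ((X.Y ω' 1 + X.s ω * X.D ω' 1) - (X.Y ω 1 + X.s ω * X.D ω 1))| ≤
        W ^ (d + 1) * E := by
      rw [abs_mul]
      exact (mul_le_mul_of_nonneg_left (hy 1) (abs_nonneg _)).trans (sz 2)
    have m5 : |X.s ω * ((X.D ω' 2 - X.sl F 1 ω₀' * X.D ω' 0 - X.sl F 2 ω₀' * X.D ω' 1) -
        (X.D ω 2 - X.sl F 1 ω₀ * X.D ω 0 - X.sl F 2 ω₀ * X.D ω 1))| ≤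
        W ^ (4 * d + 12) * E := by
      rw [abs_mul]
      calc _ ≤ 1 * (W ^ (4 * d + 12) * E) := mul_le_mul hs1 v1' (abs_nonneg _) zero_le_one
        _ = _ := one_mul _
    have m6 := hy 2
    have m7 : r ≤ E := by
      rw [hEe]
      refine le_trans ?_ H.le_er3
      nlinarith
    have e : (X.Y ω' 2 - X.sl F 1 ω₀' * X.Y ω' 0 - X.sl F 2 ω₀' * X.Y ω' 1) -
        (X.Y ω 2 - X.sl F 1 ω₀ * X.Y ω 0 - X.sl F 2 ω₀ * X.Y ω 1) =
        ((X.Y ω' 2 + X.s ω * X.D ω' 2) - (X.Y ω 2 + X.s ω * X.D ω 2)) -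
        (X.sl F 1 ω₀' - X.sl F 1 ω₀) * (X.Y ω' 0 + X.s ω * X.D ω' 0) -
        (X.sl F 2 ω₀' - X.sl F 2 ω₀) * (X.Y ω' 1 + X.s ω * X.D ω' 1) -
        X.sl F 1 ω₀ * ((X.Y ω' 0 + X.s ω * X.D ω' 0) - (X.Y ω 0 + X.s ω * X.D ω 0)) -
        X.sl F 2 ω₀ * ((X.Y ω' 1 + X.s ω * X.D ω' 1) - (X.Y ω 1 + X.s ω * X.D ω 1)) -
        X.s ω * ((X.D ω' 2 - X.sl F 1 ω₀' * X.D ω' 0 - X.sl F 2 ω₀' * X.D ω' 1) -
        (X.D ω 2 - X.sl F 1 ω₀ * X.D ω 0 - X.sl F 2 ω₀ * X.D ω 1)) := by ring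
    rw [e]
    have tri : ∀ a b c d e f : ℝ, |a - b - c - d - e - f| ≤
        |a| + |b| + |c| + |d| + |e| + |f| := by
      intro a b c d e f
      have k2 := abs_sub (a - b - c - d - e) f
      have k3 := abs_sub (a - b - c - d) e
      have k4 := abs_sub (a - b - c) d
      have k5 := abs_sub (a - b) c
      have k6 := abs_sub a b
      linarith
    refine (tri _ _ _ _ _ _).trans ?_
    have u1 := H.up (show 0 < 4 * d + 13 by omega)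
    have u2 := H.up (show d + 1 < 4 * d + 13 by omega)
    have u3 := H.up (show 4 * d + 12 < 4 * d + 13 by omega)
    rw [← hEe] at u1 u2 u3
    rw [pow_zero, one_mul] at u1
    have u4 : u * (2 * K) ≤ W ^ (4 * d + 12) * E := by
      have : W ^ (4 * d + 12) * E = W * u := by rw [hu]; ring
      rw [this]
      have := H.hB.K600
      nlinarith
    have p1 : 0 ≤ W ^ (4 * d + 12) * E := by positivity
    have p2 : 0 ≤ W ^ (d + 1) * E := by positivity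
    linarith
  have up1 : ∀ k, k < 4 * d + 14 → W ^ k * E ≤ W ^ (4 * d + 14) * E := fun k hk =>
    pow_one_term H.hB.W600 hE0 hk.le
  rw [← hEe]
  refine fin4 (P := fun i => |X.co F ω₀' i - X.co F ω₀ i| ≤ W ^ (4 * d + 14) * E) ?_ ?_ ?_ ?_ i
  · exact c0.trans (up1 _ (by omega))
  · exact v1.trans (up1 _ (by omega))
  · exact s1.trans (up1 _ (by omega))
  · exact s2.trans (up1 _ (by omega))

/-- The sizes of the slopes, when the slopes of the fans are bounded. -/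
theorem co_sz (H : Tn X A B d K r σ W Λ θ κ F) (hd : 1 ≤ d) {K₂ : ℝ} (hK₂ : 0 ≤ K₂)
    (hN : ∀ ω ω', A ω → A ω' → X.pt ω' = X.pt ω → σ / 2 ≤ |X.D ω' 0 - X.D ω 0| →
      |X.D ω' 2 - X.D ω 2| ≤ K₂ * |X.D ω' 0 - X.D ω 0|)
    (hsm : W ^ (4 * d + 7) * er r Λ θ κ ≤ 1) {ω : Ω} (hω : X.nx B σ d ω) :
    |X.sl F 2 ω| ≤ 2 * (K₂ + 2) / σ ∧
      |X.sl F 1 ω| ≤ K₂ + 2 + K * |X.sl F 2 ω| := by
  obtain ⟨hω2, y, hy, hsep⟩ := hω
  have hωB := hω2.1.1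
  have hσ := H.hB.s0
  have hW := H.hB.W0
  have hκ := H.hκ
  have hθ := H.hθ
  have hrΛ := H.rL
  have hx : 0 ≤ θ + r * Λ := by linarith
  -- the slopes of the fans
  have hnu : ∀ z, X.B2 B σ d z → |X.nu F z| ≤ K₂ + 1 := by
    intro z hz
    obtain ⟨hz1, y, hy, hsep⟩ := hz
    have hzA := H.hBA _ hz1.1
    have h0 := hy 0 (Nat.zero_le _)
    have h1 := hy 1 hd
    have hs := hsep 0 (Nat.zero_le _) 1 hd (by norm_num)
    obtain ⟨z', hz'1, hz'2, hz'3⟩ : ∃ z', X.B1 B σ d z' ∧ X.pt z' = X.pt z ∧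
        σ / 2 ≤ |X.D z' 0 - X.D z 0| := by
      by_cases hc : σ / 2 ≤ |X.D (y 0) 0 - X.D z 0|
      · exact ⟨y 0, h0.1, h0.2, hc⟩
      · refine ⟨y 1, h1.1, h1.2, ?_⟩
        push Not at hc
        have e : X.D (y 0) 0 - X.D (y 1) 0 =
            (X.D (y 0) 0 - X.D z 0) - (X.D (y 1) 0 - X.D z 0) := by ring
        simp only at hs
        rw [e] at hs
        have := abs_sub (X.D (y 0) 0 - X.D z 0) (X.D (y 1) 0 - X.D z 0)
        linarith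
    have h2 := hN z z' hzA (H.hBA _ hz'1.1) hz'2 hz'3
    have h3 := nu_fan H.hB H.h H.hBA H.hF H.hθ H.hS H.hκ H.hg hz1 hz'1 hz'2
    obtain ⟨a, ha⟩ : ∃ a, a = |X.D z' 0 - X.D z 0| := ⟨_, rfl⟩
    obtain ⟨r', hr'⟩ : ∃ r', r' = W ^ (d + 4) * (θ + r * Λ) / κ := ⟨_, rfl⟩
    rw [← ha] at hz'3 h2
    rw [← hr'] at h3
    have ha0 : 0 < a := by linarith
    have h4 : |X.nu F z| * a ≤ K₂ * a + r' := by
      have e : X.nu F z * (X.D z' 0 - X.D z 0) = (X.D z' 2 - X.D z 2) -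
          ((X.D z' 2 - X.D z 2) - X.nu F z * (X.D z' 0 - X.D z 0)) := by ring
      rw [ha, ← abs_mul, e, ← ha]
      exact (abs_sub _ _).trans (by linarith)
    have h5 : W * r' ≤ 1 := by
      rw [hr', ← mul_div_assoc, div_le_one hκ]
      refine le_trans (le_of_eq ?_) H.sm
      ring
    have h6 : r' ≤ a := by
      have b1 : 2 / σ ≤ W := by
        refine le_trans ?_ H.hB.sK
        refine div_le_div_of_nonneg_right ?_ hσ.le
        linarith [H.hB.K1]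
      have b2 : 0 ≤ r' := by rw [hr']; positivity
      have b3 : 2 / σ * r' ≤ 1 := (mul_le_mul_of_nonneg_right b1 b2).trans h5
      rw [div_mul_eq_mul_div, div_le_one hσ] at b3
      linarith
    by_contra hcon
    push Not at hcon
    have h7 : (K₂ + 1) * a < |X.nu F z| * a := mul_lt_mul_of_pos_right hcon ha0
    linarith
  have key : ∀ k ≤ 1, |X.sl F 1 ω + X.e (X.pt (y k)) * X.sl F 2 ω| ≤ K₂ + 2 := by
    intro k hk
    obtain ⟨hyB, hyw⟩ := hy k hk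
    have h1 := (H.rel hωB hyB hyw).trans hsm
    have h2 := hnu _ hyB
    have e : X.sl F 1 ω + X.e (X.pt (y k)) * X.sl F 2 ω =
        (X.sl F 1 ω + X.e (X.pt (y k)) * X.sl F 2 ω - X.nu F (y k)) + X.nu F (y k) := by ring
    rw [e]
    exact (abs_add_le _ _).trans (by linarith)
  have hs := hsep 0 (by norm_num) 1 le_rfl (by norm_num)
  have he := H.h.e _ (H.hBA _ (hy 0 (by norm_num)).1.1.1)
  have hK := H.hB.K0
  have k0 := key 0 (by norm_num)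
  obtain ⟨hb2, -⟩ := two_forms (W := 2 / σ) hσ le_rfl he hs k0 (key 1 le_rfl)
  refine ⟨?_, ?_⟩
  · refine hb2.trans (le_of_eq ?_)
    ring
  · have e : X.sl F 1 ω = (X.sl F 1 ω + X.e (X.pt (y 0)) * X.sl F 2 ω) -
        X.e (X.pt (y 0)) * X.sl F 2 ω := by ring
    rw [e]
    refine (abs_sub _ _).trans ?_
    rw [abs_mul (X.e (X.pt (y 0)))]
    have := mul_le_mul_of_nonneg_right he (abs_nonneg (X.sl F 2 ω))
    linarith

end Tn

end Pool.DICI
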