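import Pool.Agent.H18.DICI.Alg
import Pool.Agent.H26.DIC.PolS

/-!
# Lines with implicit polynomial labels

Samples with a point, a window, a line (in window coordinates), and polynomial labels (functions of
the point and of the window) which are small at the samples. Outside exceptional events the label
is small along the line, along the lines through the point, and along the planes of the fans.
-/

set_option autoImplicit false

namespace Pool.DICI

open MvPolynomial Finset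
open Pool.S6P (SepF cover vander)

/-- Polynomials in time and three coordinates. -/
abbrev P4 : Type := PP 4

/-! ### One variable -/

theorem val_of_coeff {P : Polynomial ℝ} {d : ℕ} {b : ℝ} (hd : P.natDegree ≤ d)
    (hb : ∀ m, |P.coeff m| ≤ b) {p : ℝ} (hp : |p| ≤ 1) : |P.eval p| ≤ (d + 1) * b := by
  rw [Polynomial.eval_eq_sum_range' (n := d + 1) (by omega)]
  refine (Finset.abs_sum_le_sum_abs _ _).trans ?_
  have h : ∀ i ∈ range (d + 1), |P.coeff i * p ^ i| ≤ b := by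
    intro i _
    rw [abs_mul, abs_pow]
    have h1 : |p| ^ i ≤ 1 := pow_le_one₀ (abs_nonneg _) hp
    calc |P.coeff i| * |p| ^ i ≤ |P.coeff i| * 1 :=
          mul_le_mul_of_nonneg_left h1 (abs_nonneg _)
      _ ≤ b := by rw [mul_one]; exact hb i
  refine (Finset.sum_le_sum h).trans (le_of_eq ?_)
  rw [Finset.sum_const, card_range, nsmul_eq_mul]
  push_cast
  ring

theorem der_of_coeff {P : Polynomial ℝ} {d : ℕ} {b : ℝ} (hd : P.natDegree ≤ d)
    (hb : ∀ m, |P.coeff m| ≤ b) {p : ℝ} (hp : |p| ≤ 1) :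
    |P.derivative.eval p| ≤ (d + 1) * (d * b) := by
  refine val_of_coeff ((Polynomial.natDegree_derivative_le P).trans (by omega)) (fun m => ?_) hp
  rw [Polynomial.coeff_derivative, abs_mul]
  have hb0 : 0 ≤ b := (abs_nonneg _).trans (hb 0)
  by_cases h : m + 1 ≤ d
  · have h1 : |(m : ℝ) + 1| ≤ d := by
      rw [abs_of_nonneg (by positivity)]
      exact_mod_cast h
    calc |P.coeff (m + 1)| * |(m : ℝ) + 1| ≤ b * d :=
          mul_le_mul (hb _) h1 (abs_nonneg _) hb0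
      _ = d * b := mul_comm _ _
  · rw [Polynomial.coeff_eq_zero_of_natDegree_lt (by omega), abs_zero, zero_mul]
    positivity

/-- Nodes at distance from a given number. -/
theorem nodes (d : ℕ) (s : ℝ) : ∃ x : ℕ → ℝ, (∀ k ≤ d, |x k| ≤ 1 ∧ 1 / 6 ≤ |x k - s|) ∧
    ∀ i ≤ d, ∀ j ≤ d, i ≠ j → 1 / (3 * ((d : ℝ) + 1)) ≤ |x i - x j| := by
  have hd : (0 : ℝ) < (d : ℝ) + 1 := by positivity
  obtain ⟨c, hc1, hc2⟩ : ∃ c : ℝ, |c| ≤ 2 / 3 ∧ 1 / 3 ≤ |c - s| := by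
    by_cases h : s ≤ 0
    · refine ⟨2 / 3, by rw [abs_of_pos (by norm_num)], ?_⟩
      rw [abs_of_nonneg (by linarith)]
      linarith
    · push Not at h
      refine ⟨-(2 / 3), by rw [abs_neg, abs_of_pos (by norm_num)], ?_⟩
      rw [abs_of_neg (by linarith)]
      linarith
  refine ⟨fun k => c - 1 / 6 + (k : ℝ) * (1 / (3 * ((d : ℝ) + 1))), fun k hk => ?_,
    fun i hi j hj hij => ?_⟩
  · have hk' : (k : ℝ) ≤ d := by exact_mod_cast hk
    have h0 : (0 : ℝ) ≤ k := Nat.cast_nonneg k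
    have h1 : 0 ≤ (k : ℝ) * (1 / (3 * ((d : ℝ) + 1))) := by positivity
    have h2 : (k : ℝ) * (1 / (3 * ((d : ℝ) + 1))) ≤ 1 / 3 := by
      rw [mul_one_div, div_le_div_iff₀ (by positivity) (by norm_num)]
      nlinarith
    have h3 := abs_le.1 hc1
    constructor
    · rw [abs_le]
      constructor <;> linarith
    · have e : c - 1 / 6 + (k : ℝ) * (1 / (3 * ((d : ℝ) + 1))) - s =
          (c - s) + (-(1 / 6) + (k : ℝ) * (1 / (3 * ((d : ℝ) + 1)))) := by ring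
      rw [e]
      have h4 : |-(1 / 6) + (k : ℝ) * (1 / (3 * ((d : ℝ) + 1)))| ≤ 1 / 6 := by
        rw [abs_le]
        constructor <;> linarith
      have h5 := abs_sub_abs_le_abs_sub (c - s) (-(-(1 / 6) + (k : ℝ) * (1 / (3 * ((d : ℝ) + 1)))))
      rw [abs_neg, sub_neg_eq_add] at h5
      linarith
  · have e : c - 1 / 6 + (i : ℝ) * (1 / (3 * ((d : ℝ) + 1))) -
        (c - 1 / 6 + (j : ℝ) * (1 / (3 * ((d : ℝ) + 1)))) =
        ((i : ℝ) - j) * (1 / (3 * ((d : ℝ) + 1))) := by ring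
    have h1 : (1 : ℝ) ≤ |(i : ℝ) - j| := by
      have h2 : (1 : ℤ) ≤ |(i : ℤ) - j| := Int.one_le_abs (by omega)
      exact_mod_cast h2
    simp only
    rw [e, abs_mul, abs_of_pos (a := 1 / (3 * ((d : ℝ) + 1))) (by positivity)]
    have h3 : 0 ≤ 1 / (3 * ((d : ℝ) + 1)) := by positivity
    nlinarith

/-- The large number `W`. -/
structure Big (d : ℕ) (K σ W : ℝ) : Prop where
  K1 : 1 ≤ K
  s0 : 0 < σ
  s1 : σ ≤ 1
  W : 200 * ((d : ℝ) + 3) * K ≤ W * σ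

namespace Big

variable {d : ℕ} {K σ W : ℝ}

theorem le (h : Big d K σ W) : 200 * ((d : ℝ) + 3) * K ≤ W := by
  have h1 := h.W
  have h2 := h.K1
  have h3 := h.s1
  have h4 := h.s0
  have hW : 0 ≤ W := by
    by_contra hc
    push Not at hc
    have h5 : W * σ < 0 := mul_neg_of_neg_of_pos hc h4
    have h6 : 0 ≤ 200 * ((d : ℝ) + 3) * K := by positivity
    linarith
  nlinarith

theorem d3 (h : Big d K σ W) : 200 * ((d : ℝ) + 3) ≤ W := by
  have h1 := h.le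
  have h2 := h.K1
  have h3 : (0 : ℝ) ≤ 200 * ((d : ℝ) + 3) := by positivity
  nlinarith

theorem W1 (h : Big d K σ W) : 1 ≤ W := by
  have h1 := h.d3
  have h2 : (0 : ℝ) ≤ d := Nat.cast_nonneg d
  linarith

theorem K600 (h : Big d K σ W) : 600 * K ≤ W := by
  have h1 := h.le
  have h2 := h.K1
  have h3 : (0 : ℝ) ≤ d := Nat.cast_nonneg d
  nlinarith

theorem sK (h : Big d K σ W) : 600 * K / σ ≤ W := by
  rw [div_le_iff₀ h.s0]
  have h1 := h.W
  have h2 := h.K1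
  have h3 : (0 : ℝ) ≤ d := Nat.cast_nonneg d
  nlinarith

theorem W0 (h : Big d K σ W) : 0 < W := lt_of_lt_of_le one_pos h.W1

theorem K0 (h : Big d K σ W) : 0 < K := lt_of_lt_of_le one_pos h.K1

end Big

/-- A polynomial which is small at separated points of a line is small on the line, with its
derivative. -/
theorem line_gen {d : ℕ} {K σ W : ℝ} (hB : Big d K σ W) {F : P4} (hd : F.totalDegree ≤ d)
    (x v : Fin 4 → ℝ) {ρ θ : ℝ} (hρ : 0 < ρ) (hρ1 : ρ ≤ 1) (hρW : 8 / ρ ≤ W) (hθ : 0 ≤ θ)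
    (t : ℕ → ℝ) (ht : ∀ k ≤ d, |t k| ≤ 1)
    (hs : ∀ i ≤ d, ∀ j ≤ d, i ≠ j → ρ ≤ |t i - t j|)
    (h : ∀ k ≤ d, |eval (fun i => x i + t k * v i) F| ≤ θ) {p : ℝ} (hp : |p| ≤ 1) :
    |eval (fun i => x i + p * v i) F| ≤ W ^ (d + 1) * θ ∧
    |∑ i, v i * eval (fun i => x i + p * v i) (pderiv i F)| ≤ W ^ (d + 2) * θ := by
  have hc := vander le_rfl hρ hρ1 d (lp x v F) (natDegree_lp hd x v) t ht hs θ hθ (fun k hk => by
    rw [eval_lp]; exact h k hk)
  have hW := hB.W0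
  have hW1 := hB.W1
  have h8 : (8 * 1 / ρ) ^ d * θ ≤ W ^ d * θ := by
    refine mul_le_mul_of_nonneg_right (pow_le_pow_left₀ (by positivity) ?_ _) hθ
    rw [mul_one]
    exact hρW
  have hd1 : (d : ℝ) + 1 ≤ W := by
    have := hB.d3
    have h0 : (0 : ℝ) ≤ d := Nat.cast_nonneg d
    linarith
  have hb0 : 0 ≤ W ^ d * θ := by positivity
  constructor
  · rw [← eval_lp]
    refine (val_of_coeff (natDegree_lp hd x v) (fun m => (hc m).trans h8) hp).trans ?_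
    calc ((d : ℝ) + 1) * (W ^ d * θ) ≤ W * (W ^ d * θ) := mul_le_mul_of_nonneg_right hd1 hb0
      _ = W ^ (d + 1) * θ := by ring
  · rw [← deriv_lp]
    refine (der_of_coeff (natDegree_lp hd x v) (fun m => (hc m).trans h8) hp).trans ?_
    have hd2 : (d : ℝ) ≤ W := by linarith
    calc ((d : ℝ) + 1) * (d * (W ^ d * θ)) ≤ W * (W * (W ^ d * θ)) := by
          refine mul_le_mul hd1 (mul_le_mul_of_nonneg_right hd2 hb0) (by positivity) hW.le
      _ = W ^ (d + 2) * θ := by ring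

/-! ### Data -/

/-- Data. -/
structure Idp (Ω U V : Type) where
  /-- point -/
  pt : Ω → U
  /-- line and window -/
  wn : Ω → V
  /-- time in the window -/
  s : Ω → ℝ
  /-- position at the base time -/
  Y : Ω → Fin 3 → ℝ
  /-- velocity -/
  D : Ω → Fin 3 → ℝ
  /-- slope of the fan -/
  e : U → ℝ
  /-- offset of the fan -/
  n : U → ℝ

variable {Ω U V : Type}

/-- Bounds; `r` is the precision of the fans and of the points. -/
structure Idp.Ok (X : Idp Ω U V) (A : Ω → Prop) (K r : ℝ) : Prop where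
  r0 : 0 ≤ r
  r1 : r ≤ 1
  spt : ∀ ω ω', A ω → A ω' → X.pt ω' = X.pt ω → X.s ω' = X.s ω
  ypt : ∀ ω ω', A ω → A ω' → X.pt ω' = X.pt ω → ∀ i,
    |(X.Y ω' i + X.s ω * X.D ω' i) - (X.Y ω i + X.s ω * X.D ω i)| ≤ r
  s1 : ∀ ω, A ω → |X.s ω| ≤ 1
  Y : ∀ ω, A ω → ∀ i, |X.Y ω i| ≤ K
  D : ∀ ω, A ω → ∀ i, |X.D ω i| ≤ K
  e : ∀ ω, A ω → |X.e (X.pt ω)| ≤ K
  line : ∀ ω, A ω → |X.D ω 1 - X.e (X.pt ω) * X.D ω 0 - X.n (X.pt ω)| ≤ r / 2
  wn : ∀ ω ω', A ω → A ω' → X.wn ω' = X.wn ω → X.Y ω' = X.Y ω ∧ X.D ω' = X.D ω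

/-- Labels: functions of the point and of the window. -/
structure Idp.Lb (X : Idp Ω U V) (A : Ω → Prop) (d : ℕ) (Λ : ℝ) (F : Ω → P4) : Prop where
  pt : ∀ ω ω', A ω → A ω' → X.pt ω' = X.pt ω → F ω' = F ω
  wn : ∀ ω ω', A ω → A ω' → X.wn ω' = X.wn ω → F ω' = F ω
  dg : ∀ ω, A ω → (F ω).totalDegree ≤ d
  nm : ∀ ω, A ω → nm (F ω) ≤ Λ

namespace Idp

/-- Base point of the line. -/
def bs (X : Idp Ω U V) (ω : Ω) : Fin 4 → ℝ := ![0, X.Y ω 0, X.Y ω 1, X.Y ω 2]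

/-- Direction of the line. -/
def vl (X : Idp Ω U V) (ω : Ω) : Fin 4 → ℝ := ![1, X.D ω 0, X.D ω 1, X.D ω 2]

/-- The line. -/
def po (X : Idp Ω U V) (ω : Ω) (p : ℝ) : Fin 4 → ℝ := fun i => X.bs ω i + p * X.vl ω i

/-- The label is small at the samples. -/
def Sm (X : Idp Ω U V) (B : Ω → Prop) (F : Ω → P4) (θ : ℝ) : Prop :=
  ∀ ω, B ω → |eval (X.po ω (X.s ω)) (F ω)| ≤ θ

/-- The samples with separated times on their line. -/
def B1 (X : Idp Ω U V) (B : Ω → Prop) (σ : ℝ) (d : ℕ) (ω : Ω) : Prop :=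
  B ω ∧ SepF X.wn X.s B σ d ω

/-- The samples with separated lines through the point. -/
def B2 (X : Idp Ω U V) (B : Ω → Prop) (σ : ℝ) (d : ℕ) (ω : Ω) : Prop :=
  X.B1 B σ d ω ∧ SepF X.pt (fun ω => X.D ω 0) (X.B1 B σ d) σ d ω

/-- The samples with separated slopes of the fans along the line. -/
def nx (X : Idp Ω U V) (B : Ω → Prop) (σ : ℝ) (d : ℕ) (ω : Ω) : Prop :=
  X.B2 B σ d ω ∧ SepF X.wn (fun ω => X.e (X.pt ω)) (X.B2 B σ d) σ 1 ω

variable {X : Idp Ω U V} {A B : Ω → Prop} {d : ℕ} {K r σ W Λ θ : ℝ}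

theorem nx_sub {ω : Ω} (h : X.nx B σ d ω) : B ω := h.1.1.1

/-- The exceptional events of an event. -/
theorem exc (X : Idp Ω U V) (B : Ω → Prop) (σ : ℝ) (d : ℕ) :
    ∃ (tt : ℕ → V → ℝ) (v : ℕ → U → ℝ) (ζ : V → ℝ), ∀ ω, B ω → X.nx B σ d ω ∨
      (∃ k < d, |X.s ω - tt k (X.wn ω)| ≤ σ) ∨ (∃ k < d, |X.D ω 0 - v k (X.pt ω)| ≤ σ) ∨
      |X.e (X.pt ω) - ζ (X.wn ω)| ≤ σ := by
  obtain ⟨tt, htt⟩ := cover X.wn X.s B σ d
  obtain ⟨v, hv⟩ := cover X.pt (fun ω => X.D ω 0) (X.B1 B σ d) σ d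
  obtain ⟨ζ, hζ⟩ := cover X.wn (fun ω => X.e (X.pt ω)) (X.B2 B σ d) σ 1
  refine ⟨tt, v, ζ 0, fun ω hω => ?_⟩
  rcases htt ω hω with h1 | h1
  swap
  · exact Or.inr (Or.inl h1)
  rcases hv ω ⟨hω, h1⟩ with h2 | h2
  swap
  · exact Or.inr (Or.inr (Or.inl h2))
  rcases hζ ω ⟨⟨hω, h1⟩, h2⟩ with h3 | ⟨k, hk, h3⟩
  · exact Or.inl ⟨⟨⟨hω, h1⟩, h2⟩, h3⟩
  · have : k = 0 := by omega
    subst this
    exact Or.inr (Or.inr (Or.inr h3))

theorem fin4 {P : Fin 4 → Prop} (h0 : P 0) (h1 : P 1) (h2 : P 2) (h3 : P 3) (i : Fin 4) : P i := by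
  have : ∀ j : Fin 4, j = 0 ∨ j = 1 ∨ j = 2 ∨ j = 3 := by decide
  rcases this i with rfl | rfl | rfl | rfl
  · exact h0
  · exact h1
  · exact h2
  · exact h3

theorem po_wn (h : X.Ok A K r) {ω ω' : Ω} (hω : A ω) (hω' : A ω') (hw : X.wn ω' = X.wn ω) :
    X.po ω' = X.po ω ∧ X.vl ω' = X.vl ω := by
  obtain ⟨h1, h2⟩ := h.wn ω ω' hω hω' hw
  constructor
  · funext p i
    unfold po bs vl
    rw [h1, h2]
  · unfold vl
    rw [h2]

theorem po_le (h : X.Ok A K r) (hK : 1 ≤ K) {ω : Ω} (hω : A ω) {p : ℝ} (hp : |p| ≤ 1)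
    (i : Fin 4) : |X.po ω p i| ≤ 2 * K := by
  have key : ∀ a b : ℝ, |a| ≤ K → |b| ≤ K → |a + p * b| ≤ 2 * K := by
    intro a b ha hb
    have h1 : |p * b| ≤ 1 * K := by
      rw [abs_mul]
      exact mul_le_mul hp hb (abs_nonneg _) zero_le_one
    exact (abs_add_le _ _).trans (by linarith)
  refine fin4 (P := fun i => |X.po ω p i| ≤ 2 * K) ?_ ?_ ?_ ?_ i
  · show |0 + p * 1| ≤ 2 * K
    rw [zero_add, mul_one]
    linarith
  · exact key _ _ (h.Y ω hω 0) (h.D ω hω 0)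
  · exact key _ _ (h.Y ω hω 1) (h.D ω hω 1)
  · exact key _ _ (h.Y ω hω 2) (h.D ω hω 2)

theorem vl_le (h : X.Ok A K r) (hK : 1 ≤ K) {ω : Ω} (hω : A ω) (i : Fin 4) :
    |X.vl ω i| ≤ K := by
  refine fin4 (P := fun i => |X.vl ω i| ≤ K) ?_ ?_ ?_ ?_ i
  · show |(1 : ℝ)| ≤ K
    rw [abs_one]
    exact hK
  · exact h.D ω hω 0
  · exact h.D ω hω 1
  · exact h.D ω hω 2

/-- The label is small along the line. -/
theorem line_small (hB : Big d K σ W) (h : X.Ok A K r) (hBA : ∀ ω, B ω → A ω) {F : Ω → P4}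
    (hF : X.Lb B d Λ F) (hθ : 0 ≤ θ) (hS : X.Sm B F θ) {ω : Ω} (hω : X.B1 B σ d ω) {p : ℝ}
    (hp : |p| ≤ 1) : |eval (X.po ω p) (F ω)| ≤ W ^ (d + 1) * θ ∧
      |∑ i, X.vl ω i * eval (X.po ω p) (pderiv i (F ω))| ≤ W ^ (d + 2) * θ := by
  obtain ⟨hω, z, hz, hsep⟩ := hω
  have h8 : 8 / σ ≤ W := by
    refine le_trans ?_ hB.sK
    refine div_le_div_of_nonneg_right ?_ hB.s0.le
    linarith [hB.K1]
  refine line_gen hB (hF.dg ω hω) (X.bs ω) (X.vl ω) hB.s0 hB.s1 h8 hθ (fun k => X.s (z k))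
    (fun k hk => h.s1 _ (hBA _ (hz k hk).1)) hsep (fun k hk => ?_) hp
  have h1 := hS (z k) (hz k hk).1
  have h2 := (po_wn h (hBA _ hω) (hBA _ (hz k hk).1) (hz k hk).2).1
  have h3 := hF.wn ω (z k) hω (hz k hk).1 (hz k hk).2
  rw [h2, h3] at h1
  exact h1

/-- Direction in the plane of a fan. -/
def uv (e ν : ℝ) : Fin 4 → ℝ := ![0, 1, e, ν]

theorem uv_sum (e ν : ℝ) (f : Fin 4 → ℝ) : ∑ i, uv e ν i * f i = f 1 + e * f 2 + ν * f 3 := by
  rw [Fin.sum_univ_four]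
  show 0 * f 0 + 1 * f 1 + e * f 2 + ν * f 3 = _
  ring

theorem vl_sum (X : Idp Ω U V) (ω : Ω) (f : Fin 4 → ℝ) : ∑ i, X.vl ω i * f i =
    f 0 + X.D ω 0 * f 1 + X.D ω 1 * f 2 + X.D ω 2 * f 3 := by
  rw [Fin.sum_univ_four]
  show 1 * f 0 + X.D ω 0 * f 1 + X.D ω 1 * f 2 + X.D ω 2 * f 3 = _
  ring

/-- Position of a mate at the time `p`. -/
theorem mate_po (h : X.Ok A K r) {z z' : Ω} (hz : A z) (hz' : A z') (hpt : X.pt z' = X.pt z)
    {p : ℝ} (hp : |p| ≤ 1) {ν r' : ℝ} (hr : r ≤ r') (i : Fin 4) (hi : i = 3 →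
      |(X.D z' 2 - X.D z 2) - ν * (X.D z' 0 - X.D z 0)| ≤ r') :
    |X.po z p i + (p - X.s z) * (X.D z' 0 - X.D z 0) * uv (X.e (X.pt z)) ν i - X.po z' p i| ≤
      3 * r' := by
  have hr0 := h.r0
  have hs := h.s1 z hz
  have hps : |p - X.s z| ≤ 2 := (abs_sub _ _).trans (by linarith)
  have hy := h.ypt z z' hz hz' hpt
  have key : ∀ (j : Fin 3) (c : ℝ), |(X.D z' j - X.D z j) - c * (X.D z' 0 - X.D z 0)| ≤ r' →
      |(X.Y z j + p * X.D z j) + (p - X.s z) * (X.D z' 0 - X.D z 0) * c -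
        (X.Y z' j + p * X.D z' j)| ≤ 3 * r' := by
    intro j c hc
    have e : (X.Y z j + p * X.D z j) + (p - X.s z) * (X.D z' 0 - X.D z 0) * c -
        (X.Y z' j + p * X.D z' j) = -((X.Y z' j + X.s z * X.D z' j) - (X.Y z j + X.s z * X.D z j)) -
        (p - X.s z) * ((X.D z' j - X.D z j) - c * (X.D z' 0 - X.D z 0)) := by ring
    rw [e]
    refine (abs_sub _ _).trans ?_
    rw [abs_neg, abs_mul]
    have h1 : |p - X.s z| * |(X.D z' j - X.D z j) - c * (X.D z' 0 - X.D z 0)| ≤ 2 * r' :=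
      mul_le_mul hps hc (abs_nonneg _) (by norm_num)
    linarith [hy j]
  have hl : |(X.D z' 1 - X.D z 1) - X.e (X.pt z) * (X.D z' 0 - X.D z 0)| ≤ r := by
    have h1 := h.line z hz
    have h2 := h.line z' hz'
    rw [hpt] at h2
    rw [abs_le] at *
    constructor <;> linarith [h1.1, h1.2, h2.1, h2.2]
  revert hi
  refine fin4 (P := fun i => (i = 3 → |(X.D z' 2 - X.D z 2) - ν * (X.D z' 0 - X.D z 0)| ≤ r') →
    |X.po z p i + (p - X.s z) * (X.D z' 0 - X.D z 0) * uv (X.e (X.pt z)) ν i - X.po z' p i| ≤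
      3 * r') ?_ ?_ ?_ ?_ i
  · intro _
    show |(0 + p * 1) + (p - X.s z) * (X.D z' 0 - X.D z 0) * 0 - (0 + p * 1)| ≤ 3 * r'
    rw [mul_zero, add_zero, sub_self, abs_zero]
    linarith
  · intro _
    refine key 0 1 ?_
    rw [one_mul, sub_self, abs_zero]
    linarith
  · intro _
    exact key 1 _ (hl.trans hr)
  · intro h3
    exact key 2 _ (h3 rfl)

/-- The derivative of the label in the plane of the fan, away from the point. -/
theorem plane_at (hB : Big d K σ W) (h : X.Ok A K r) (hBA : ∀ ω, B ω → A ω) {F : Ω → P4}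
    (hF : X.Lb B d Λ F) (hθ : 0 ≤ θ) (hS : X.Sm B F θ) {z : Ω} (hz : X.B2 B σ d z) {ν r' : ℝ}
    (hr : r ≤ r') (hr1 : r' ≤ 1) (hν : Free 3 (F z) ∨ ∀ z', X.B1 B σ d z' → X.pt z' = X.pt z →
      |(X.D z' 2 - X.D z 2) - ν * (X.D z' 0 - X.D z 0)| ≤ r') {p : ℝ} (hp : |p| ≤ 1)
    (hps : 1 / 6 ≤ |p - X.s z|) :
    |∑ i, uv (X.e (X.pt z)) ν i * eval (X.po z p) (pderiv i (F z))| ≤
      W ^ (2 * d + 1) * (θ + r' * Λ) := by
  obtain ⟨⟨hzB, hz1⟩, y, hy, hsep⟩ := hz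
  have hzA := hBA z hzB
  have hK := hB.K1
  have hK0 := hB.K0
  have hσ := hB.s0
  have hσ1 := hB.s1
  have hW0 := hB.W0
  have hW1 := hB.W1
  have hr0 : 0 ≤ r' := h.r0.trans hr
  have hΛ : 0 ≤ Λ := (nm_nonneg _).trans (hF.nm z hzB)
  have hd := hF.dg z hzB
  have val : ∀ k ≤ d, |eval (fun i => X.po z p i + (p - X.s z) * (X.D (y k) 0 - X.D z 0) *
      uv (X.e (X.pt z)) ν i) (F z)| ≤ W ^ (d + 1) * (θ + r' * Λ) := by
    intro k hk
    obtain ⟨hyB, hypt⟩ := hy k hk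
    have hyA := hBA _ hyB.1
    have h1 := (line_small hB h hBA hF hθ hS hyB hp).1
    rw [hF.pt z (y k) hzB hyB.1 hypt] at h1
    obtain ⟨q, hq⟩ : ∃ q : Fin 4 → ℝ, q = fun i => X.po z p i +
      (p - X.s z) * (X.D (y k) 0 - X.D z 0) * uv (X.e (X.pt z)) ν i := ⟨_, rfl⟩
    rw [← hq]
    obtain ⟨q', hq1, hq2⟩ : ∃ q' : Fin 4 → ℝ, eval q (F z) = eval q' (F z) ∧
        ∀ i, |q' i - X.po (y k) p i| ≤ 3 * r' := by
      rcases hν with hfr | hν
      · refine ⟨fun i => if i = 3 then X.po (y k) p 3 else q i, ?_, fun i => ?_⟩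
        · refine hfr.eval fun i hi => ?_
          rw [if_neg hi]
        · by_cases hi : i = 3
          · simp only [if_pos hi]
            rw [hi, sub_self, abs_zero]
            linarith
          · simp only [if_neg hi]
            rw [hq]
            exact mate_po h hzA hyA hypt hp hr i fun h3 => absurd h3 hi
      · refine ⟨q, rfl, fun i => ?_⟩
        rw [hq]
        exact mate_po h hzA hyA hypt hp hr i fun _ => hν _ hyB hypt
    have hx5 : ∀ i, |X.po (y k) p i| ≤ 5 * K := fun i =>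
      (po_le h hK hyA hp i).trans (by linarith)
    have hq5 : ∀ i, |q' i| ≤ 5 * K := by
      intro i
      have h2 := hq2 i
      have h3 := po_le h hK hyA hp i
      have h4 := abs_add_le (q' i - X.po (y k) p i) (X.po (y k) p i)
      rw [sub_add_cancel] at h4
      linarith
    have h2 := eval_sub_le (by linarith : (1 : ℝ) ≤ 5 * K) hx5 hq5 hq2 hd
    have h3 : ((4 : ℕ) : ℝ) * (3 * r' * ((5 * K) ^ d * (d * nm (F z)))) ≤
        W ^ (d + 1) * (r' * Λ) := by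
      have a1 : (5 * K) ^ d ≤ W ^ d := pow_le_pow_left₀ (by positivity) (by
        linarith [hB.K600]) _
      have a2 : (12 : ℝ) * d ≤ W := by
        have := hB.d3
        have h0 : (0 : ℝ) ≤ d := Nat.cast_nonneg d
        linarith
      have a3 := hF.nm z hzB
      have a4 := nm_nonneg (F z)
      calc ((4 : ℕ) : ℝ) * (3 * r' * ((5 * K) ^ d * (d * nm (F z)))) =
            (5 * K) ^ d * ((12 * d) * (r' * nm (F z))) := by push_cast; ring
        _ ≤ W ^ d * (W * (r' * Λ)) := by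
            refine mul_le_mul a1 ?_ (by positivity) (by positivity)
            exact mul_le_mul a2 (mul_le_mul_of_nonneg_left a3 hr0) (by positivity) hW0.le
        _ = W ^ (d + 1) * (r' * Λ) := by ring
    rw [hq1]
    have h4 := abs_add_le (eval q' (F z) - eval (X.po (y k) p) (F z))
      (eval (X.po (y k) p) (F z))
    rw [sub_add_cancel] at h4
    rw [mul_add]
    linarith
  have hps0 : 0 < |p - X.s z| := by linarith
  have hps2 : |p - X.s z| ≤ 2 := (abs_sub _ _).trans (by linarith [h.s1 z hzA])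
  have hv := vander (K := 4 * K) (ρ := σ / 6) (by linarith) (by linarith) (by linarith) d
    (lp (X.po z p) (uv (X.e (X.pt z)) ν) (F z)) (natDegree_lp hd _ _)
    (fun k => (p - X.s z) * (X.D (y k) 0 - X.D z 0)) (fun k hk => by
      have h1 := h.D _ (hBA _ (hy k hk).1.1) 0
      have h2 := h.D _ hzA 0
      have h3 : |X.D (y k) 0 - X.D z 0| ≤ 2 * K := (abs_sub _ _).trans (by linarith)
      rw [abs_mul]
      calc |p - X.s z| * |X.D (y k) 0 - X.D z 0| ≤ 2 * (2 * K) :=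
            mul_le_mul hps2 h3 (abs_nonneg _) (by norm_num)
        _ = 4 * K := by ring) (fun i hi j hj hij => by
      have h1 := hsep i hi j hj hij
      have e : (p - X.s z) * (X.D (y i) 0 - X.D z 0) - (p - X.s z) * (X.D (y j) 0 - X.D z 0) =
        (p - X.s z) * (X.D (y i) 0 - X.D (y j) 0) := by ring
      rw [e, abs_mul]
      calc σ / 6 = 1 / 6 * σ := by ring
        _ ≤ |p - X.s z| * |X.D (y i) 0 - X.D (y j) 0| :=
            mul_le_mul hps h1 hσ.le (abs_nonneg _))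
    (W ^ (d + 1) * (θ + r' * Λ)) (by positivity) (fun k hk => by
      rw [eval_lp]
      exact val k hk) 1
  rw [coeff_one_lp] at hv
  refine hv.trans ?_
  have h8 : 8 * (4 * K) / (σ / 6) ≤ W := by
    have e : 8 * (4 * K) / (σ / 6) = 192 * K / σ := by field_simp; ring
    rw [e]
    refine le_trans ?_ hB.sK
    refine div_le_div_of_nonneg_right ?_ hσ.le
    linarith
  calc (8 * (4 * K) / (σ / 6)) ^ d * (W ^ (d + 1) * (θ + r' * Λ)) ≤
        W ^ d * (W ^ (d + 1) * (θ + r' * Λ)) :=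
        mul_le_mul_of_nonneg_right (pow_le_pow_left₀ (by positivity) h8 _) (by positivity)
    _ = W ^ (2 * d + 1) * (θ + r' * Λ) := by
        rw [← mul_assoc, ← pow_add]
        congr 2
        ring

/-- The derivative of the label in the plane of the fan, along the line. -/
theorem plane (hB : Big d K σ W) (h : X.Ok A K r) (hBA : ∀ ω, B ω → A ω) {F : Ω → P4}
    (hF : X.Lb B d Λ F) (hθ : 0 ≤ θ) (hS : X.Sm B F θ) {z : Ω} (hz : X.B2 B σ d z) {ν r' : ℝ}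
    (hr : r ≤ r') (hr1 : r' ≤ 1) (hν : Free 3 (F z) ∨ ∀ z', X.B1 B σ d z' → X.pt z' = X.pt z →
      |(X.D z' 2 - X.D z 2) - ν * (X.D z' 0 - X.D z 0)| ≤ r') {p : ℝ} (hp : |p| ≤ 1) :
    |eval (X.po z p) (pderiv 1 (F z)) + X.e (X.pt z) * eval (X.po z p) (pderiv 2 (F z)) +
      ν * eval (X.po z p) (pderiv 3 (F z))| ≤ W ^ (3 * d + 2) * (θ + r' * Λ) := by
  have hzB := hz.1.1
  have hd := hF.dg z hzB
  have hr0 : 0 ≤ r' := h.r0.trans hr
  have hΛ : 0 ≤ Λ := (nm_nonneg _).trans (hF.nm z hzB)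
  have hW0 := hB.W0
  obtain ⟨G, hG⟩ : ∃ G : P4, G = pderiv 1 (F z) + C (X.e (X.pt z)) * pderiv 2 (F z) +
    C ν * pderiv 3 (F z) := ⟨_, rfl⟩
  have hGe : ∀ x : Fin 4 → ℝ, eval x G = eval x (pderiv 1 (F z)) +
      X.e (X.pt z) * eval x (pderiv 2 (F z)) + ν * eval x (pderiv 3 (F z)) := by
    intro x
    rw [hG]
    simp
  have hCd : ∀ (c : ℝ) (P : P4), P.totalDegree ≤ d → (C c * P).totalDegree ≤ d := by
    intro c P hP
    refine (totalDegree_mul _ _).trans ?_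
    rw [totalDegree_C, zero_add]
    exact hP
  have hGd : G.totalDegree ≤ d := by
    rw [hG]
    refine (totalDegree_add _ _).trans (max_le ((totalDegree_add _ _).trans (max_le ?_ ?_)) ?_)
    · exact totalDegree_pd' hd 1
    · exact hCd _ _ (totalDegree_pd' hd 2)
    · exact hCd _ _ (totalDegree_pd' hd 3)
  obtain ⟨t, ht1, ht2⟩ := nodes d (X.s z)
  have h8 : 8 / (1 / (3 * ((d : ℝ) + 1))) ≤ W := by
    have e : 8 / (1 / (3 * ((d : ℝ) + 1))) = 24 * (d + 1) := by field_simp; ring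
    rw [e]
    have := hB.d3
    have h0 : (0 : ℝ) ≤ d := Nat.cast_nonneg d
    linarith
  have hl := (line_gen hB hGd (X.bs z) (X.vl z) (ρ := 1 / (3 * ((d : ℝ) + 1))) (by positivity)
    (by
      have h0 : (0 : ℝ) ≤ d := Nat.cast_nonneg d
      rw [div_le_one (by positivity)]
      linarith) h8 (θ := W ^ (2 * d + 1) * (θ + r' * Λ)) (by positivity) t
    (fun k hk => (ht1 k hk).1) ht2 (fun k hk => by
      have h1 := plane_at hB h hBA hF hθ hS hz hr hr1 hν (ht1 k hk).1 (ht1 k hk).2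
      rw [uv_sum] at h1
      have h2 := hGe (X.po z (t k))
      unfold po at h1 h2
      rw [h2]
      exact h1) hp).1
  have h2 := hGe (X.po z p)
  unfold po at h2 ⊢
  rw [← h2]
  refine hl.trans (le_of_eq ?_)
  rw [← mul_assoc, ← pow_add]
  congr 2
  ring

/-- Two linear forms. -/
theorem two_forms {e₀ e₁ a b c σ W K : ℝ} (hσ : 0 < σ) (hW : 2 / σ ≤ W) (hK : |e₀| ≤ K)
    (hs : σ ≤ |e₀ - e₁|) (h0 : |a + e₀ * b| ≤ c) (h1 : |a + e₁ * b| ≤ c) :
    |b| ≤ W * c ∧ |a| ≤ (1 + K * W) * c := by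
  have hc : 0 ≤ c := (abs_nonneg _).trans h0
  have h2 : |(e₀ - e₁) * b| ≤ 2 * c := by
    have e : (e₀ - e₁) * b = (a + e₀ * b) - (a + e₁ * b) := by ring
    rw [e]
    exact (abs_sub _ _).trans (by linarith)
  rw [abs_mul] at h2
  have h3 : σ * |b| ≤ 2 * c := (mul_le_mul_of_nonneg_right hs (abs_nonneg b)).trans h2
  have hb : |b| ≤ W * c := by
    have h4 : |b| ≤ 2 / σ * c := by
      rw [div_mul_eq_mul_div, le_div_iff₀ hσ]
      linarith
    exact h4.trans (mul_le_mul_of_nonneg_right hW hc)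
  refine ⟨hb, ?_⟩
  have e : a = (a + e₀ * b) - e₀ * b := by ring
  rw [e]
  refine (abs_sub _ _).trans ?_
  have h5 : |e₀ * b| ≤ K * (W * c) := by
    rw [abs_mul]
    exact mul_le_mul hK hb (abs_nonneg _) ((abs_nonneg _).trans hK)
  rw [add_mul, one_mul, mul_assoc]
  linarith

/-- **No vertical equation**, one step: all derivatives of a small label without the last
variable are small. -/
theorem vert (hB : Big d K σ W) (h : X.Ok A K r) (hBA : ∀ ω, B ω → A ω) {F : Ω → P4}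
    (hF : X.Lb B d Λ F) (hfr : ∀ ω, B ω → Free 3 (F ω)) (hθ : 0 ≤ θ) (hS : X.Sm B F θ)
    (i : Fin 4) : X.Sm (X.nx B σ d) (fun ω => pderiv i (F ω)) (W ^ (3 * d + 5) * (θ + r * Λ)) := by
  intro ω hω
  obtain ⟨hω2, y, hy, hsep⟩ := hω
  have hωB := hω2.1.1
  have hωA := hBA _ hωB
  have hW0 := hB.W0
  have hW1 := hB.W1
  have hK0 := hB.K0
  have hK1 := hB.K1
  have hr0 := h.r0
  have hΛ : 0 ≤ Λ := (nm_nonneg _).trans (hF.nm ω hωB)
  have hs1 := h.s1 ω hωA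
  have hfr3 : pderiv 3 (F ω) = 0 := (hfr ω hωB).pd_self
  obtain ⟨b, hb⟩ : ∃ b, b = W ^ (3 * d + 2) * (θ + r * Λ) := ⟨_, rfl⟩
  have hb0 : 0 ≤ b := by rw [hb]; positivity
  have key : ∀ k ≤ 1, |eval (X.po ω (X.s ω)) (pderiv 1 (F ω)) +
      X.e (X.pt (y k)) * eval (X.po ω (X.s ω)) (pderiv 2 (F ω))| ≤ b := by
    intro k hk
    obtain ⟨hyB, hyw⟩ := hy k hk
    have hy0 := hyB.1.1
    have h1 := plane hB h hBA hF hθ hS hyB (ν := 0) le_rfl h.r1 (Or.inl (hfr _ hy0)) hs1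
    rw [(po_wn h hωA (hBA _ hy0) hyw).1, hF.wn ω (y k) hωB hy0 hyw, ← hb] at h1
    simpa using h1
  have hs := hsep 0 (by norm_num) 1 le_rfl (by norm_num)
  have he := h.e _ (hBA _ (hy 0 (by norm_num)).1.1.1)
  have h2 : 2 / σ ≤ W := by
    refine le_trans ?_ hB.sK
    refine div_le_div_of_nonneg_right ?_ hB.s0.le
    linarith
  obtain ⟨hb2, hb1⟩ := two_forms hB.s0 h2 he hs (key 0 (by norm_num)) (key 1 le_rfl)
  have hKW : 1 + K * W ≤ W ^ 2 := by
    have := hB.K600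
    nlinarith
  have hb1' : |eval (X.po ω (X.s ω)) (pderiv 1 (F ω))| ≤ W ^ 2 * b :=
    hb1.trans (mul_le_mul_of_nonneg_right hKW hb0)
  have h0 := (line_small hB h hBA hF hθ hS hω2.1 hs1).2
  rw [vl_sum, hfr3, map_zero, mul_zero, add_zero] at h0
  have hbb : W ^ (d + 2) * θ ≤ b := by
    rw [hb]
    refine mul_le_mul (pow_le_pow_right₀ hW1 (by omega)) ?_ hθ (by positivity)
    have : 0 ≤ r * Λ := by positivity
    linarith
  have hD0 := h.D ω hωA 0
  have hD1 := h.D ω hωA 1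
  have hb0' : |eval (X.po ω (X.s ω)) (pderiv 0 (F ω))| ≤ W ^ 3 * b := by
    have e : eval (X.po ω (X.s ω)) (pderiv 0 (F ω)) =
        (eval (X.po ω (X.s ω)) (pderiv 0 (F ω)) +
          X.D ω 0 * eval (X.po ω (X.s ω)) (pderiv 1 (F ω)) +
          X.D ω 1 * eval (X.po ω (X.s ω)) (pderiv 2 (F ω))) -
        X.D ω 0 * eval (X.po ω (X.s ω)) (pderiv 1 (F ω)) -
        X.D ω 1 * eval (X.po ω (X.s ω)) (pderiv 2 (F ω)) := by ring
    rw [e]
    have h3 : |X.D ω 0 * eval (X.po ω (X.s ω)) (pderiv 1 (F ω))| ≤ K * (W ^ 2 * b) := by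
      rw [abs_mul]
      exact mul_le_mul hD0 hb1' (abs_nonneg _) hK0.le
    have h4 : |X.D ω 1 * eval (X.po ω (X.s ω)) (pderiv 2 (F ω))| ≤ K * (W * b) := by
      rw [abs_mul]
      exact mul_le_mul hD1 hb2 (abs_nonneg _) hK0.le
    have h5 : b + K * (W ^ 2 * b) + K * (W * b) ≤ W ^ 3 * b := by
      have h6 : 1 + K * W ^ 2 + K * W ≤ W ^ 3 := by
        have h7 := hB.K600
        have h8 : K * W ^ 2 * 600 ≤ W ^ 3 := by nlinarith [sq_nonneg W]
        have h9 : K * W ≤ K * W ^ 2 := by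
          refine mul_le_mul_of_nonneg_left ?_ hK0.le
          nlinarith
        have h10 : 1 ≤ K * W ^ 2 := by nlinarith
        linarith
      nlinarith
    have h6 := abs_sub (eval (X.po ω (X.s ω)) (pderiv 0 (F ω)) +
          X.D ω 0 * eval (X.po ω (X.s ω)) (pderiv 1 (F ω)) +
          X.D ω 1 * eval (X.po ω (X.s ω)) (pderiv 2 (F ω)) -
        X.D ω 0 * eval (X.po ω (X.s ω)) (pderiv 1 (F ω)))
        (X.D ω 1 * eval (X.po ω (X.s ω)) (pderiv 2 (F ω)))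
    have h7 := abs_sub (eval (X.po ω (X.s ω)) (pderiv 0 (F ω)) +
          X.D ω 0 * eval (X.po ω (X.s ω)) (pderiv 1 (F ω)) +
          X.D ω 1 * eval (X.po ω (X.s ω)) (pderiv 2 (F ω)))
        (X.D ω 0 * eval (X.po ω (X.s ω)) (pderiv 1 (F ω)))
    linarith
  have e5 : W ^ (3 * d + 5) * (θ + r * Λ) = W ^ 3 * b := by
    rw [hb, ← mul_assoc, ← pow_add]
    congr 2
    ring
  rw [e5]
  have p1 : W ^ 2 * b ≤ W ^ 3 * b :=
    mul_le_mul_of_nonneg_right (pow_le_pow_right₀ hW1 (by norm_num)) hb0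
  have p2 : W * b ≤ W ^ 3 * b := by
    refine mul_le_mul_of_nonneg_right ?_ hb0
    calc W = W ^ 1 := (pow_one W).symm
      _ ≤ W ^ 3 := pow_le_pow_right₀ hW1 (by norm_num)
  refine fin4 (P := fun i => |eval (X.po ω (X.s ω)) (pderiv i (F ω))| ≤ W ^ 3 * b)
    hb0' (hb1'.trans p1) (hb2.trans p2) ?_ i
  rw [hfr3, map_zero, abs_zero]
  positivity

end Idp

end Pool.DICI
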