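import Pool.Agent.H18.DICI.Cof

/-!
# The dichotomy for implicit labels

Samples with a point, a window, a line in window coordinates, straight fans in the first two
coordinates, and an implicit polynomial label (a function of the point and of the window) which is
small at the samples. Outside exceptional events (the time is known from the window, the fans are
thin, the slope of the fans is known from the window) there is a plane through the line which is a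
function of the window and, up to a small error, of the point.
-/

set_option autoImplicit false

namespace Pool.DICI

open MvPolynomial Finset

variable {Ω U V : Type}

/-- Derivative of order `k` of the label in the last variable, at the sample. -/
noncomputable def Idp.gN (X : Idp Ω U V) (L : Ω → P4) (k : ℕ) (ω : Ω) : ℝ :=
  eval (X.po ω (X.s ω)) ((pderiv 3)^[k] (L ω))

open Idp

/-- An exponent. -/
def cA (d : ℕ) : ℕ := d * ((d + 1) * (4 * d + 8) + d + 4)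

/-- Exponents of the thresholds. -/
def mN (d : ℕ) : ℕ → ℕ
  | 0 => cA d + 3
  | k + 1 => 2 * mN d k + 6 * d + 20

theorem mN_mono (d : ℕ) : ∀ {a b : ℕ}, a ≤ b → mN d a ≤ mN d b := by
  intro a b hab
  induction hab with
  | refl => exact le_rfl
  | step _ ih =>
    refine ih.trans ?_
    show _ ≤ 2 * mN d _ + 6 * d + 20
    omega

/-- Exponent of the precision of the data. -/
def NN (d : ℕ) : ℕ := mN d d + d + 2

/-- Thresholds. -/
noncomputable def eta (d : ℕ) (W : ℝ) (j : ℕ) : ℝ := 1 / W ^ mN d (d - j)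

theorem eta_pos {d : ℕ} {W : ℝ} (hW : 0 < W) (j : ℕ) : 0 < eta d W j := by
  unfold eta
  positivity

theorem eta_mono {d : ℕ} {W : ℝ} (hW : 1 ≤ W) {i j : ℕ} (hij : i ≤ j) :
    eta d W i ≤ eta d W j := by
  unfold eta
  exact one_div_le_one_div_of_le (pow_pos (by linarith) _)
    (pow_le_pow_right₀ hW (mN_mono d (by omega)))

theorem eta_le_one {d : ℕ} {W : ℝ} (hW : 1 ≤ W) (j : ℕ) : eta d W j ≤ 1 := by
  unfold eta
  rw [div_le_one (pow_pos (by linarith) _)]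
  exact one_le_pow₀ hW

theorem eta_succ {d : ℕ} {W : ℝ} (hW : 0 < W) {k : ℕ} (hk : k < d) :
    eta d W k = eta d W (k + 1) ^ 2 / W ^ (6 * d + 20) := by
  unfold eta
  have e : mN d (d - k) = 2 * mN d (d - (k + 1)) + 6 * d + 20 := by
    have : d - k = (d - (k + 1)) + 1 := by omega
    rw [this]
    rfl
  rw [e, add_assoc, pow_add, mul_comm 2, pow_mul, div_pow, one_pow]
  field_simp

variable {X : Idp Ω U V} {A B : Ω → Prop} {d : ℕ} {K r σ W Λ ε : ℝ} {L : Ω → P4}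

theorem Idp.Lb.iter (hB : Big d K σ W) (h : X.Lb B d Λ L) : ∀ m : ℕ,
    X.Lb B d (W ^ m * Λ) (fun ω => (pderiv 3)^[m] (L ω))
  | 0 => by simpa using h
  | m + 1 => by
    have h1 := (Idp.Lb.iter hB h m).pd hB.d1 3
    have e : W * (W ^ m * Λ) = W ^ (m + 1) * Λ := by ring
    rw [e] at h1
    simpa only [Function.iterate_succ_apply'] using h1

theorem Idp.Lb.mono {Λ' : ℝ} (h : X.Lb B d Λ L) (hΛ : Λ ≤ Λ') : X.Lb B d Λ' L where
  pt := h.pt
  wn := h.wn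
  dg := h.dg
  nm ω hω := (h.nm ω hω).trans hΛ

/-- The samples whose first large derivative is that of order `k + 1`. -/
def Idp.Ty (X : Idp Ω U V) (A : Ω → Prop) (L : Ω → P4) (d : ℕ) (W : ℝ) (k : ℕ) (ω : Ω) : Prop :=
  A ω ∧ eta d W (k + 1) ≤ |X.gN L (k + 1) ω| ∧ ∀ l, 1 ≤ l → l ≤ k → |X.gN L l ω| < eta d W l

/-- The samples without large derivatives. -/
def Idp.Ti (X : Idp Ω U V) (A : Ω → Prop) (L : Ω → P4) (d : ℕ) (W : ℝ) (ω : Ω) : Prop :=
  A ω ∧ ∀ l, 1 ≤ l → l ≤ d → |X.gN L l ω| < eta d W l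

theorem types (X : Idp Ω U V) {A : Ω → Prop} (L : Ω → P4) (d : ℕ) (W : ℝ) {ω : Ω} (hω : A ω) :
    X.Ti A L d W ω ∨ ∃ k < d, X.Ty A L d W k ω := by
  classical
  by_cases h : ∃ l, 1 ≤ l ∧ l ≤ d ∧ eta d W l ≤ |X.gN L l ω|
  · right
    obtain ⟨h1, h2, h3⟩ := Nat.find_spec h
    obtain ⟨l, hl⟩ : ∃ l, l = Nat.find h := ⟨_, rfl⟩
    rw [← hl] at h1 h2 h3
    refine ⟨l - 1, by omega, hω, ?_, fun j hj1 hj2 => ?_⟩
    · rw [Nat.sub_add_cancel h1]
      exact h3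
    · by_contra hc
      push Not at hc
      exact Nat.find_min h (m := j) (by omega) ⟨hj1, by omega, hc⟩
  · left
    push Not at h
    exact ⟨hω, h⟩

/-- Hypotheses of the dichotomy. -/
structure Hyp (X : Idp Ω U V) (A : Ω → Prop) (d : ℕ) (K r σ W Λ ε : ℝ) (L : Ω → P4) :
    Prop where
  hB : Big d K σ W
  hd : 1 ≤ d
  h : X.Ok A K r
  hL : X.Lb A d Λ L
  hΛ : Λ ≤ W
  h1 : ∀ ω, A ω → 1 ≤ nm (L ω)
  ε0 : 0 ≤ ε
  hS : X.Sm A L ε
  hε : ε ≤ 1 / W ^ NN d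
  hr : r ≤ 1 / W ^ NN d

namespace Hyp

theorem ee (H : Hyp X A d K r σ W Λ ε L) (j : ℕ) : ε ≤ eta d W j := by
  refine H.hε.trans ?_
  unfold eta NN
  refine one_div_le_one_div_of_le (pow_pos H.hB.W0 _) (pow_le_pow_right₀ H.hB.W1 ?_)
  have : mN d (d - j) ≤ mN d d := mN_mono d (by omega)
  omega

theorem rr (H : Hyp X A d K r σ W Λ ε L) (j : ℕ) : r * W ^ (d + 1) ≤ eta d W j := by
  have hW := H.hB.W0
  have h0 : r * W ^ (d + 1) ≤ 1 / W ^ NN d * W ^ (d + 1) :=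
    mul_le_mul_of_nonneg_right H.hr (by positivity)
  have h1 : 1 / W ^ NN d * W ^ (d + 1) = 1 / W ^ (mN d d + 1) := by
    have e : NN d = (mN d d + 1) + (d + 1) := by unfold NN; ring
    rw [e, pow_add W (mN d d + 1)]
    field_simp
  rw [h1] at h0
  refine h0.trans ?_
  unfold eta
  refine one_div_le_one_div_of_le (pow_pos hW _) (pow_le_pow_right₀ H.hB.W1 ?_)
  have : mN d (d - j) ≤ mN d d := mN_mono d (by omega)
  omega

/-- No sample survives among those without large derivatives. -/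
theorem none_left (H : Hyp X A d K r σ W Λ ε L) (ω : Ω) :
    ¬ X.nxs σ d (mj d) (X.Ti A L d W) ω := by
  intro hω
  have hT := nxs_sub X σ d _ _ ω hω
  have hW := H.hB.W0
  have hW6 := H.hB.W600
  have hr0 := H.h.r0
  have hΛ0 : 0 ≤ Λ := (nm_nonneg _).trans (H.hL.nm ω hT.1)
  have h1 := all_iter H.hB H.h d le_rfl (X.Ti A L d W) L Λ (eta d W d) (fun ω hω => hω.1)
    (H.hL.sub fun ω hω => hω.1) (fun ω hω => H.hL.dg ω hω.1) (eta_pos hW d).le
    (fun k hk ω hω => by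
      rcases Nat.eq_zero_or_pos k with rfl | hk0
      · exact (H.hS ω hω.1).trans (H.ee d)
      · exact (hω.2 k hk0 hk).le.trans (eta_mono H.hB.W1 hk)) ω hω
  have h2 := H.h1 ω hT.1
  have h3 : r * Λ ≤ eta d W d := by
    refine le_trans ?_ (H.rr d)
    refine mul_le_mul_of_nonneg_left (H.hΛ.trans ?_) hr0
    calc W = W ^ 1 := (pow_one W).symm
      _ ≤ W ^ (d + 1) := pow_le_pow_right₀ H.hB.W1 (by omega)
  have h4 : W ^ cA d * (eta d W d + r * Λ) ≤ W ^ cA d * (2 * eta d W d) :=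
    mul_le_mul_of_nonneg_left (by linarith) (by positivity)
  have h5 : W ^ cA d * (2 * eta d W d) = 2 / W ^ 3 := by
    unfold eta
    rw [Nat.sub_self]
    show W ^ cA d * (2 * (1 / W ^ (cA d + 3))) = 2 / W ^ 3
    rw [pow_add]
    field_simp
  have h6 : 2 / W ^ 3 < 1 := by
    rw [div_lt_one (by positivity)]
    have : (600 : ℝ) ^ 3 ≤ W ^ 3 := pow_le_pow_left₀ (by norm_num) hW6 3
    norm_num at this
    linarith
  have h7 : nm (L ω) ≤ W ^ cA d * (eta d W d + r * Λ) := h1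
  linarith

/-- Each type with large derivatives. -/
theorem tn (H : Hyp X A d K r σ W Λ ε L) {k : ℕ} (hk : k < d) :
    Tn X A (X.Ty A L d W k) d K r σ W (W ^ (d + 1)) (eta d W k) (eta d W (k + 1))
      (fun ω => (pderiv 3)^[k] (L ω)) where
  hB := H.hB
  h := H.h
  hBA ω hω := hω.1
  hF := by
    refine ((H.hL.sub fun ω hω => hω.1).iter H.hB k).mono ?_
    have hW := H.hB.W0
    calc W ^ k * Λ ≤ W ^ k * W := mul_le_mul_of_nonneg_left H.hΛ (by positivity)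
      _ = W ^ (k + 1) := by ring
      _ ≤ W ^ (d + 1) := pow_le_pow_right₀ H.hB.W1 (by omega)
  hΛ := one_le_pow₀ H.hB.W1
  hθ := (eta_pos H.hB.W0 k).le
  hS ω hω := by
    rcases Nat.eq_zero_or_pos k with rfl | hk0
    · exact (H.hS ω hω.1).trans (H.ee 0)
    · exact (hω.2.2 k hk0 le_rfl).le
  hκ := eta_pos H.hB.W0 _
  hκ1 := eta_le_one H.hB.W1 _
  hg ω hω := by
    have h1 := hω.2.1
    unfold Idp.gN at h1
    unfold Idp.gr
    rw [Function.iterate_succ_apply'] at h1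
    exact h1
  sm := by
    have hW := H.hB.W0
    have hW6 := H.hB.W600
    have h1 := H.rr k
    have h2 := eta_pos (d := d) hW k
    have h3 := eta_pos (d := d) hW (k + 1)
    have h4 := eta_le_one (d := d) H.hB.W1 (k + 1)
    have h5 := eta_succ hW hk
    have h6 : W ^ (d + 5) * (eta d W k + r * W ^ (d + 1)) ≤ W ^ (d + 5) * (2 * eta d W k) :=
      mul_le_mul_of_nonneg_left (by linarith) (by positivity)
    refine h6.trans ?_
    rw [h5]
    have h7 : W ^ (d + 5) * (2 * (eta d W (k + 1) ^ 2 / W ^ (6 * d + 20))) =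
        (2 * W ^ (d + 5) / W ^ (6 * d + 20) * eta d W (k + 1)) * eta d W (k + 1) := by ring
    rw [h7]
    have h8 : 2 * W ^ (d + 5) / W ^ (6 * d + 20) ≤ 1 := by
      rw [div_le_one (by positivity)]
      calc 2 * W ^ (d + 5) ≤ W * W ^ (d + 5) :=
            mul_le_mul_of_nonneg_right (by linarith) (by positivity)
        _ = W ^ (d + 6) := by ring
        _ ≤ W ^ (6 * d + 20) := pow_le_pow_right₀ H.hB.W1 (by omega)
    have h9 : 2 * W ^ (d + 5) / W ^ (6 * d + 20) * eta d W (k + 1) ≤ 1 := by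
      calc _ ≤ 1 * 1 := mul_le_mul h8 h4 h3.le zero_le_one
        _ = 1 := one_mul 1
    calc _ ≤ 1 * eta d W (k + 1) := mul_le_mul_of_nonneg_right h9 h3.le
      _ = _ := one_mul _

theorem er_le (H : Hyp X A d K r σ W Λ ε L) {k : ℕ} (hk : k < d) :
    W ^ (4 * d + 14) * Tn.er r (W ^ (d + 1)) (eta d W k) (eta d W (k + 1)) ≤ 1 / W ^ 3 := by
  have hW := H.hB.W0
  have hW6 := H.hB.W600
  have h1 := H.rr k
  have h2 := eta_pos (d := d) hW k
  have h3 := eta_pos (d := d) hW (k + 1)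
  have h5 := eta_succ hW hk
  unfold Tn.er
  have h6 : (eta d W k + r * W ^ (d + 1)) * (W ^ (d + 1)) ^ 2 / eta d W (k + 1) ^ 2 ≤
      (2 * eta d W k) * (W ^ (d + 1)) ^ 2 / eta d W (k + 1) ^ 2 := by
    refine div_le_div_of_nonneg_right ?_ (by positivity)
    refine mul_le_mul_of_nonneg_right ?_ (by positivity)
    linarith
  have h7 : (2 * eta d W k) * (W ^ (d + 1)) ^ 2 / eta d W (k + 1) ^ 2 = 2 / W ^ (4 * d + 18) := by
    rw [h5]
    have e : W ^ (6 * d + 20) = (W ^ (d + 1)) ^ 2 * W ^ (4 * d + 18) := by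
      rw [← pow_mul, ← pow_add]
      congr 1
      ring
    rw [e]
    field_simp
  rw [h7] at h6
  have h8 : W ^ (4 * d + 14) * (2 / W ^ (4 * d + 18)) = 2 / W ^ 4 := by
    have e : W ^ (4 * d + 18) = W ^ (4 * d + 14) * W ^ 4 := by
      rw [← pow_add]
    rw [e]
    field_simp
  have h9 : 2 / W ^ 4 ≤ 1 / W ^ 3 := by
    rw [div_le_div_iff₀ (by positivity) (by positivity), one_mul]
    calc 2 * W ^ 3 ≤ W * W ^ 3 := mul_le_mul_of_nonneg_right (by linarith) (by positivity)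
      _ = W ^ 4 := by ring
  calc _ ≤ W ^ (4 * d + 14) * (2 / W ^ (4 * d + 18)) :=
        mul_le_mul_of_nonneg_left h6 (by positivity)
    _ = 2 / W ^ 4 := h8
    _ ≤ _ := h9

/-- **The dichotomy for implicit labels.** -/
theorem dici (H : Hyp X A d K r σ W Λ ε L) {K₂ : ℝ} (hK₂ : 0 ≤ K₂)
    (hN : ∀ ω ω', A ω → A ω' → X.pt ω' = X.pt ω → σ / 2 ≤ |X.D ω' 0 - X.D ω 0| →
      |X.D ω' 2 - X.D ω 2| ≤ K₂ * |X.D ω' 0 - X.D ω 0|) :
    ∃ (tt : ℕ → ℕ → V → ℝ) (v : ℕ → ℕ → U → ℝ) (ζ : ℕ → V → ℝ) (Gd : ℕ → Ω → Prop)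
      (cf : ℕ → V → Fin 4 → ℝ),
      (∀ ω, A ω → (∃ k < d, Gd k ω) ∨ ∃ i < mj d + d,
        (∃ k < d, |X.s ω - tt i k (X.wn ω)| ≤ σ) ∨ (∃ k < d, |X.D ω 0 - v i k (X.pt ω)| ≤ σ) ∨
        |X.e (X.pt ω) - ζ i (X.wn ω)| ≤ σ) ∧
      (∀ k ω, Gd k ω → A ω) ∧
      (∀ k ω, Gd k ω →
        X.Y ω 2 = cf k (X.wn ω) 0 + cf k (X.wn ω) 2 * X.Y ω 0 + cf k (X.wn ω) 3 * X.Y ω 1 ∧
        X.D ω 2 = cf k (X.wn ω) 1 + cf k (X.wn ω) 2 * X.D ω 0 + cf k (X.wn ω) 3 * X.D ω 1) ∧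
      (∀ k < d, ∀ ω ω', Gd k ω → Gd k ω' → X.pt ω' = X.pt ω → ∀ i,
        |cf k (X.wn ω') i - cf k (X.wn ω) i| ≤ 1 / W ^ 3) ∧
      ∀ k < d, ∀ ω, Gd k ω → |cf k (X.wn ω) 3| ≤ 2 * (K₂ + 2) / σ ∧
        |cf k (X.wn ω) 2| ≤ K₂ + 2 + K * |cf k (X.wn ω) 3| := by
  classical
  have hW := H.hB.W0
  choose tt v ζ hexc using fun B : Ω → Prop => exc X B σ d
  obtain ⟨Bn, hBn⟩ : ∃ Bn : ℕ → Ω → Prop, Bn = fun i => if i < mj d then
      X.nxs σ d i (X.Ti A L d W) else X.Ty A L d W (i - mj d) := ⟨_, rfl⟩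
  -- good events and coefficients
  obtain ⟨Gd, hGd⟩ : ∃ Gd : ℕ → Ω → Prop, Gd = fun k ω => X.nx (X.Ty A L d W k) σ d ω :=
    ⟨_, rfl⟩
  obtain ⟨F, hF⟩ : ∃ F : ℕ → Ω → P4, F = fun k ω => (pderiv 3)^[k] (L ω) := ⟨_, rfl⟩
  have hrep : ∀ (k : ℕ) (y : V), ∃ c : Fin 4 → ℝ, ∀ ω, Gd k ω → X.wn ω = y →
      ∃ ω₀, Gd k ω₀ ∧ X.wn ω₀ = y ∧ c = X.co (F k) ω₀ := by
    intro k y
    by_cases h : ∃ ω, Gd k ω ∧ X.wn ω = y
    · obtain ⟨ω₀, h1, h2⟩ := h
      exact ⟨X.co (F k) ω₀, fun ω _ _ => ⟨ω₀, h1, h2, rfl⟩⟩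
    · exact ⟨0, fun ω h1 h2 => absurd ⟨ω, h1, h2⟩ h⟩
  choose cf hcf using hrep
  refine ⟨fun i => tt (Bn i), fun i => v (Bn i), fun i => ζ (Bn i), Gd, cf, ?_, ?_, ?_, ?_, ?_⟩
  · intro ω hω
    have key : ∀ i, Bn i ω → X.nx (Bn i) σ d ω ∨ ((∃ k < d, |X.s ω - tt (Bn i) k (X.wn ω)| ≤ σ) ∨
        (∃ k < d, |X.D ω 0 - v (Bn i) k (X.pt ω)| ≤ σ) ∨
        |X.e (X.pt ω) - ζ (Bn i) (X.wn ω)| ≤ σ) := fun i hi => hexc (Bn i) ω hi
    rcases types X L d W hω with hT | ⟨k, hk, hT⟩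
    · right
      have hchain : ∀ m, m ≤ mj d → X.nxs σ d m (X.Ti A L d W) ω ∨ ∃ i < mj d,
          (∃ k < d, |X.s ω - tt (Bn i) k (X.wn ω)| ≤ σ) ∨
          (∃ k < d, |X.D ω 0 - v (Bn i) k (X.pt ω)| ≤ σ) ∨
          |X.e (X.pt ω) - ζ (Bn i) (X.wn ω)| ≤ σ := by
        intro m
        induction m with
        | zero => exact fun _ => Or.inl hT
        | succ m ih =>
          intro hm
          rcases ih (by omega) with h1 | h1
          · have e : Bn m = X.nxs σ d m (X.Ti A L d W) := by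
              rw [hBn]
              simp only [if_pos (show m < mj d by omega)]
            rcases key m (by rw [e]; exact h1) with h2 | h2
            · left
              rw [nxs_succ, ← e]
              exact h2
            · exact Or.inr ⟨m, by omega, h2⟩
          · exact Or.inr h1
      rcases hchain (mj d) le_rfl with h1 | ⟨i, hi, h1⟩
      · exact absurd h1 (H.none_left ω)
      · exact ⟨i, by omega, h1⟩
    · have e : Bn (mj d + k) = X.Ty A L d W k := by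
        rw [hBn]
        simp only [if_neg (show ¬ mj d + k < mj d by omega), Nat.add_sub_cancel_left]
      rcases key (mj d + k) (by rw [e]; exact hT) with h2 | h2
      · left
        refine ⟨k, hk, ?_⟩
        rw [hGd]
        rw [e] at h2
        exact h2
      · exact Or.inr ⟨mj d + k, by omega, h2⟩
  · intro k ω hω
    rw [hGd] at hω
    exact (nx_sub hω).1
  · intro k ω hω
    obtain ⟨ω₀, h1, h2, h3⟩ := hcf k (X.wn ω) ω hω rfl
    rw [h3]
    rw [hGd] at hω h1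
    have hωA : A ω := (nx_sub hω).1
    have hωA₀ : A ω₀ := (nx_sub h1).1
    obtain ⟨y, dd⟩ := H.h.wn ω ω₀ hωA hωA₀ h2
    constructor
    · show X.Y ω 2 = (X.Y ω₀ 2 - X.sl (F k) 1 ω₀ * X.Y ω₀ 0 - X.sl (F k) 2 ω₀ * X.Y ω₀ 1) +
        X.sl (F k) 1 ω₀ * X.Y ω 0 + X.sl (F k) 2 ω₀ * X.Y ω 1
      rw [y]
      ring
    · show X.D ω 2 = (X.D ω₀ 2 - X.sl (F k) 1 ω₀ * X.D ω₀ 0 - X.sl (F k) 2 ω₀ * X.D ω₀ 1) +
        X.sl (F k) 1 ω₀ * X.D ω 0 + X.sl (F k) 2 ω₀ * X.D ω 1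
      rw [dd]
      ring
  · intro k hk ω ω' hω hω' hp i
    obtain ⟨ω₀, h1, h2, h3⟩ := hcf k (X.wn ω) ω hω rfl
    obtain ⟨ω₀', h1', h2', h3'⟩ := hcf k (X.wn ω') ω' hω' rfl
    rw [h3, h3']
    rw [hGd] at hω hω' h1 h1'
    rw [hF]
    exact ((H.tn hk).co_pt hω hω' h1 h1' h2 h2' hp i).trans (H.er_le hk)
  · intro k hk ω hω
    obtain ⟨ω₀, h1, h2, h3⟩ := hcf k (X.wn ω) ω hω rfl
    rw [h3]
    rw [hGd] at h1
    rw [hF]
    refine (H.tn hk).co_sz H.hd hK₂ hN ?_ h1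
    refine le_trans ?_ ((H.er_le hk).trans ?_)
    · exact pow_one_term H.hB.W600 (H.tn hk).er0 (by omega)
    · rw [div_le_one (by positivity)]
      exact one_le_pow₀ H.hB.W1

end Hyp

end Pool.DICI
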