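import Pool.Agent.H18.DICI.Ver

/-!
# The tangent planes of an implicit label

A label which is small at the samples while its derivative in the last variable is not: outside
exceptional events the tangent plane at the sample is a function of the line and the window, up to
a small error.
-/

set_option autoImplicit false

namespace Pool.DICI

open MvPolynomial Finset

variable {Ω U V : Type}

/-- Derivative of the label at the sample. -/
noncomputable def Idp.gr (X : Idp Ω U V) (F : Ω → P4) (i : Fin 4) (ω : Ω) : ℝ :=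
  eval (X.po ω (X.s ω)) (pderiv i (F ω))

open Idp

variable {X : Idp Ω U V} {A B : Ω → Prop} {d : ℕ} {K r σ W Λ θ κ : ℝ} {F : Ω → P4}

theorem quot_sub {x y x' y' δ M κ : ℝ} (hκ : 0 < κ) (hκ1 : κ ≤ 1) (hM : 1 ≤ M) (hy : κ ≤ |y|)
    (hy' : κ ≤ |y'|) (hx : |x' - x| ≤ δ) (hyy : |y' - y| ≤ δ) (hM' : |x'| ≤ M) :
    |x' / y' - x / y| ≤ 2 * (M * δ / κ ^ 2) := by
  have hδ : 0 ≤ δ := (abs_nonneg _).trans hx
  have hy0 : y ≠ 0 := by
    rintro rfl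
    rw [abs_zero] at hy
    linarith
  have hy0' : y' ≠ 0 := by
    rintro rfl
    rw [abs_zero] at hy'
    linarith
  have e : x' / y' - x / y = (x' - x) / y - x' * (y' - y) / (y * y') := by
    field_simp
    ring
  rw [e]
  refine (abs_sub _ _).trans ?_
  rw [abs_div, abs_div, abs_mul, abs_mul]
  have h1 : |x' - x| / |y| ≤ M * δ / κ ^ 2 := by
    rw [div_le_div_iff₀ (by linarith) (by positivity)]
    have a1 : κ ^ 2 ≤ |y| := by nlinarith
    calc |x' - x| * κ ^ 2 ≤ δ * |y| := mul_le_mul hx a1 (by positivity) hδ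
      _ ≤ M * δ * |y| := by
          refine mul_le_mul_of_nonneg_right ?_ (abs_nonneg _)
          nlinarith
  have h2 : |x'| * |y' - y| / (|y| * |y'|) ≤ M * δ / κ ^ 2 := by
    have a1 : |x'| * |y' - y| ≤ M * δ := mul_le_mul hM' hyy (abs_nonneg _) (by linarith)
    have a2 : κ ^ 2 ≤ |y| * |y'| := by
      rw [sq]
      exact mul_le_mul hy hy' hκ.le (abs_nonneg _)
    exact div_le_div₀ (by positivity) a1 (by positivity) a2
  linarith

theorem gr_le (hB : Big d K σ W) (h : X.Ok A K r) (hBA : ∀ ω, B ω → A ω) (hF : X.Lb B d Λ F)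
    (i : Fin 4) {ω : Ω} (hω : B ω) : |X.gr F i ω| ≤ W ^ (d + 1) * Λ := by
  have hK2 : (1 : ℝ) ≤ 2 * K := by linarith [hB.K1]
  have h1 := abs_eval_le hK2 (po_le h hB.K1 (hBA ω hω) (h.s1 ω (hBA ω hω)))
    (totalDegree_pd' (hF.dg ω hω) i)
  have h2 : nm (pderiv i (F ω)) ≤ W * Λ := (hF.pd hB.d1 i).nm ω hω
  have h3 : (2 * K) ^ d ≤ W ^ d :=
    pow_le_pow_left₀ (by linarith) (by linarith [hB.K600, hB.K1]) _
  have hW := hB.W0
  unfold Idp.gr
  refine h1.trans ?_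
  calc (2 * K) ^ d * nm (pderiv i (F ω)) ≤ W ^ d * (W * Λ) :=
        mul_le_mul h3 h2 (nm_nonneg _) (by positivity)
    _ = W ^ (d + 1) * Λ := by ring

theorem po_pt (h : X.Ok A K r) {ω ω' : Ω} (hω : A ω) (hω' : A ω') (hp : X.pt ω' = X.pt ω)
    (i : Fin 4) : |X.po ω' (X.s ω) i - X.po ω (X.s ω) i| ≤ r := by
  have hy := h.ypt ω ω' hω hω' hp
  refine fin4 (P := fun i => |X.po ω' (X.s ω) i - X.po ω (X.s ω) i| ≤ r) ?_ ?_ ?_ ?_ i
  · show |(0 + X.s ω * 1) - (0 + X.s ω * 1)| ≤ r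
    rw [sub_self, abs_zero]
    exact h.r0
  · exact hy 0
  · exact hy 1
  · exact hy 2

theorem gr_pt (hB : Big d K σ W) (h : X.Ok A K r) (hBA : ∀ ω, B ω → A ω) (hF : X.Lb B d Λ F)
    (i : Fin 4) {ω ω' : Ω} (hω : B ω) (hω' : B ω') (hp : X.pt ω' = X.pt ω) :
    |X.gr F i ω' - X.gr F i ω| ≤ W ^ (d + 2) * (r * Λ) := by
  have hωA := hBA ω hω
  have hωA' := hBA ω' hω'
  have hs := h.spt ω ω' hωA hωA' hp
  have hK2 : (1 : ℝ) ≤ 2 * K := by linarith [hB.K1]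
  have hW := hB.W0
  have hr0 := h.r0
  unfold Idp.gr
  rw [hs, hF.pt ω ω' hω hω' hp]
  have h1 := eval_sub_le hK2 (po_le h hB.K1 hωA (h.s1 ω hωA)) (po_le h hB.K1 hωA' (h.s1 ω hωA))
    (po_pt h hωA hωA' hp) (totalDegree_pd' (hF.dg ω hω) i)
  refine h1.trans ?_
  have h2 : nm (pderiv i (F ω)) ≤ W * Λ := (hF.pd hB.d1 i).nm ω hω
  have h3 : (2 * K) ^ d ≤ W ^ d :=
    pow_le_pow_left₀ (by linarith) (by linarith [hB.K600, hB.K1]) _
  have h4 : (4 : ℝ) * d ≤ W := by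
    have := hB.d3
    have h0 : (0 : ℝ) ≤ d := Nat.cast_nonneg d
    linarith
  have h5 := nm_nonneg (pderiv i (F ω))
  calc ((4 : ℕ) : ℝ) * (r * ((2 * K) ^ d * (d * nm (pderiv i (F ω))))) =
        (2 * K) ^ d * ((4 * d) * (r * nm (pderiv i (F ω)))) := by push_cast; ring
    _ ≤ W ^ d * (W * (r * (W * Λ))) := by
        refine mul_le_mul h3 ?_ (by positivity) (by positivity)
        exact mul_le_mul h4 (mul_le_mul_of_nonneg_left h2 hr0) (by positivity) hW.le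
    _ = W ^ (d + 2) * (r * Λ) := by ring

/-- Tangency along the line. -/
theorem gr_line (hB : Big d K σ W) (h : X.Ok A K r) (hBA : ∀ ω, B ω → A ω) (hF : X.Lb B d Λ F)
    (hθ : 0 ≤ θ) (hS : X.Sm B F θ) {ω : Ω} (hω : X.B1 B σ d ω) :
    |X.gr F 0 ω + X.D ω 0 * X.gr F 1 ω + X.D ω 1 * X.gr F 2 ω + X.D ω 2 * X.gr F 3 ω| ≤
      W ^ (d + 2) * θ := by
  have h1 := (line_small hB h hBA hF hθ hS hω (h.s1 ω (hBA ω hω.1))).2
  rw [vl_sum] at h1
  exact h1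

/-- Tangency in the fan. -/
theorem gr_fan (hB : Big d K σ W) (h : X.Ok A K r) (hBA : ∀ ω, B ω → A ω) (hF : X.Lb B d Λ F)
    (hθ : 0 ≤ θ) (hS : X.Sm B F θ) {z z' : Ω} (hz : X.B1 B σ d z) (hz' : X.B1 B σ d z')
    (hp : X.pt z' = X.pt z) :
    |(X.D z' 0 - X.D z 0) * (X.gr F 1 z + X.e (X.pt z) * X.gr F 2 z) +
      (X.D z' 2 - X.D z 2) * X.gr F 3 z| ≤ W ^ (d + 4) * (θ + r * Λ) := by
  have hzB := hz.1
  have hzB' := hz'.1
  have hzA := hBA z hzB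
  have hzA' := hBA z' hzB'
  have hW := hB.W0
  have hW6 := hB.W600
  have hK0 := hB.K0
  have hr0 := h.r0
  have hΛ : 0 ≤ Λ := (nm_nonneg _).trans (hF.nm z hzB)
  have hx : 0 ≤ θ + r * Λ := by
    have : 0 ≤ r * Λ := mul_nonneg hr0 hΛ
    linarith
  have t1 := gr_line hB h hBA hF hθ hS hz
  have t2 := gr_line hB h hBA hF hθ hS hz'
  have dd := fun i => gr_pt hB h hBA hF i hzB hzB' hp
  have hl : |(X.D z' 1 - X.D z 1) - X.e (X.pt z) * (X.D z' 0 - X.D z 0)| ≤ r := by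
    have h1 := h.line z hzA
    have h2 := h.line z' hzA'
    rw [hp] at h2
    rw [abs_le] at *
    constructor <;> linarith [h1.1, h1.2, h2.1, h2.2]
  have hg2 := gr_le hB h hBA hF 2 hzB
  obtain ⟨g0, e0⟩ : ∃ g, g = X.gr F 0 z := ⟨_, rfl⟩
  obtain ⟨g1, e1⟩ : ∃ g, g = X.gr F 1 z := ⟨_, rfl⟩
  obtain ⟨g2, e2⟩ : ∃ g, g = X.gr F 2 z := ⟨_, rfl⟩
  obtain ⟨g3, e3⟩ : ∃ g, g = X.gr F 3 z := ⟨_, rfl⟩
  have d0 := dd 0
  have d1 := dd 1
  have d2 := dd 2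
  have d3 := dd 3
  obtain ⟨δ, hδ⟩ : ∃ δ, δ = W ^ (d + 2) * (r * Λ) := ⟨_, rfl⟩
  rw [← hδ, ← e0] at d0
  rw [← hδ, ← e1] at d1
  rw [← hδ, ← e2] at d2
  rw [← hδ, ← e3] at d3
  rw [← e0, ← e1, ← e2, ← e3] at t1
  rw [← e1, ← e2, ← e3]
  rw [← e2] at hg2
  have hδ0 : 0 ≤ δ := (abs_nonneg _).trans d0
  have m : ∀ (c g g' : ℝ), |c| ≤ K → |g' - g| ≤ δ → |c * (g' - g)| ≤ K * δ := by
    intro c g g' hc hg
    rw [abs_mul]
    exact mul_le_mul hc hg (abs_nonneg _) hK0.le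
  have m0 := m _ _ _ (h.D z' hzA' 0) d1
  have m1 := m _ _ _ (h.D z' hzA' 1) d2
  have m2 := m _ _ _ (h.D z' hzA' 2) d3
  have e : (X.D z' 0 - X.D z 0) * (g1 + X.e (X.pt z) * g2) + (X.D z' 2 - X.D z 2) * g3 =
      (X.gr F 0 z' + X.D z' 0 * X.gr F 1 z' + X.D z' 1 * X.gr F 2 z' + X.D z' 2 * X.gr F 3 z') -
      (g0 + X.D z 0 * g1 + X.D z 1 * g2 + X.D z 2 * g3) - (X.gr F 0 z' - g0) -
      X.D z' 0 * (X.gr F 1 z' - g1) - X.D z' 1 * (X.gr F 2 z' - g2) -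
      X.D z' 2 * (X.gr F 3 z' - g3) -
      ((X.D z' 1 - X.D z 1) - X.e (X.pt z) * (X.D z' 0 - X.D z 0)) * g2 := by ring
  have m3 : |((X.D z' 1 - X.D z 1) - X.e (X.pt z) * (X.D z' 0 - X.D z 0)) * g2| ≤
      r * (W ^ (d + 1) * Λ) := by
    rw [abs_mul]
    exact mul_le_mul hl hg2 (abs_nonneg _) hr0
  have tri : ∀ a b c d e f g : ℝ, |a - b - c - d - e - f - g| ≤
      |a| + |b| + |c| + |d| + |e| + |f| + |g| := by
    intro a b c d e f g
    have k1 := abs_sub (a - b - c - d - e - f) g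
    have k2 := abs_sub (a - b - c - d - e) f
    have k3 := abs_sub (a - b - c - d) e
    have k4 := abs_sub (a - b - c) d
    have k5 := abs_sub (a - b) c
    have k6 := abs_sub a b
    linarith
  rw [e]
  refine (tri _ _ _ _ _ _ _).trans ?_
  have hKW : 3 * K * δ ≤ W * δ := mul_le_mul_of_nonneg_right (by linarith [hB.K600]) hδ0
  have eδ : W * δ = W ^ (d + 3) * (r * Λ) := by rw [hδ]; ring
  have eδ2 : δ ≤ W ^ (d + 3) * (θ + r * Λ) := by
    rw [hδ]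
    refine mul_le_mul (pow_le_pow_right₀ hB.W1 (by omega)) (by linarith) (by positivity)
      (by positivity)
  have b1 : W ^ (d + 3) * (r * Λ) ≤ W ^ (d + 3) * (θ + r * Λ) :=
    mul_le_mul_of_nonneg_left (by linarith) (by positivity)
  have b2 : W ^ (d + 2) * θ ≤ W ^ (d + 3) * (θ + r * Λ) := by
    refine mul_le_mul (pow_le_pow_right₀ hB.W1 (by omega)) ?_ hθ (by positivity)
    have : 0 ≤ r * Λ := by positivity
    linarith
  have b3 : r * (W ^ (d + 1) * Λ) ≤ W ^ (d + 3) * (θ + r * Λ) := by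
    calc r * (W ^ (d + 1) * Λ) = W ^ (d + 1) * (r * Λ) := by ring
      _ ≤ _ := mul_le_mul (pow_le_pow_right₀ hB.W1 (by omega)) (by linarith) (by positivity)
        (by positivity)
  have b4 := pow_two_terms hW6 hx (a := d + 3) (b := d + 3) (c := d + 4) (by omega) (by omega)
  have b5 : 0 ≤ W ^ (d + 3) * (θ + r * Λ) := by positivity
  linarith

/-- The slope of the fan in the last coordinate. -/
noncomputable def Idp.nu (X : Idp Ω U V) (F : Ω → P4) (z : Ω) : ℝ :=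
  -((X.gr F 1 z + X.e (X.pt z) * X.gr F 2 z) / X.gr F 3 z)

/-- Straightness in the last coordinate. -/
theorem nu_fan (hB : Big d K σ W) (h : X.Ok A K r) (hBA : ∀ ω, B ω → A ω) (hF : X.Lb B d Λ F)
    (hθ : 0 ≤ θ) (hS : X.Sm B F θ) (hκ : 0 < κ) (hg : ∀ ω, B ω → κ ≤ |X.gr F 3 ω|) {z z' : Ω}
    (hz : X.B1 B σ d z) (hz' : X.B1 B σ d z') (hp : X.pt z' = X.pt z) :
    |(X.D z' 2 - X.D z 2) - X.nu F z * (X.D z' 0 - X.D z 0)| ≤
      W ^ (d + 4) * (θ + r * Λ) / κ := by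
  have h1 := gr_fan hB h hBA hF hθ hS hz hz' hp
  have hg3 := hg z hz.1
  have hg0 : X.gr F 3 z ≠ 0 := by
    intro h0
    rw [h0, abs_zero] at hg3
    linarith
  have e : (X.D z' 2 - X.D z 2) - X.nu F z * (X.D z' 0 - X.D z 0) =
      ((X.D z' 0 - X.D z 0) * (X.gr F 1 z + X.e (X.pt z) * X.gr F 2 z) +
        (X.D z' 2 - X.D z 2) * X.gr F 3 z) / X.gr F 3 z := by
    unfold Idp.nu
    field_simp
    ring
  rw [e, abs_div]
  exact div_le_div₀ ((abs_nonneg _).trans h1) h1 hκ hg3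

/-- Slope of the tangent plane. -/
noncomputable def Idp.sl (X : Idp Ω U V) (F : Ω → P4) (i : Fin 4) (ω : Ω) : ℝ :=
  -(X.gr F i ω / X.gr F 3 ω)

/-- All hypotheses for labels with large derivative in the last variable. -/
structure Tn (X : Idp Ω U V) (A B : Ω → Prop) (d : ℕ) (K r σ W Λ θ κ : ℝ) (F : Ω → P4) :
    Prop where
  hB : Big d K σ W
  h : X.Ok A K r
  hBA : ∀ ω, B ω → A ω
  hF : X.Lb B d Λ F
  hΛ : 1 ≤ Λ
  hθ : 0 ≤ θ
  hS : X.Sm B F θ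
  hκ : 0 < κ
  hκ1 : κ ≤ 1
  hg : ∀ ω, B ω → κ ≤ |X.gr F 3 ω|
  sm : W ^ (d + 5) * (θ + r * Λ) ≤ κ

namespace Tn

/-- The size of all errors. -/
noncomputable def er (r Λ θ κ : ℝ) : ℝ := (θ + r * Λ) * Λ ^ 2 / κ ^ 2

theorem rL (H : Tn X A B d K r σ W Λ θ κ F) : 0 ≤ r * Λ :=
  mul_nonneg H.h.r0 (zero_le_one.trans H.hΛ)

theorem er0 (H : Tn X A B d K r σ W Λ θ κ F) : 0 ≤ er r Λ θ κ := by
  have := H.rL
  have := H.hθ
  unfold er
  positivity

theorem le_er (H : Tn X A B d K r σ W Λ θ κ F) : (θ + r * Λ) * Λ / κ ^ 2 ≤ er r Λ θ κ := by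
  have h1 := H.rL
  have h2 := H.hθ
  have h3 := H.hΛ
  unfold er
  refine div_le_div_of_nonneg_right ?_ (by positivity)
  refine mul_le_mul_of_nonneg_left ?_ (by linarith)
  nlinarith

theorem le_er2 (H : Tn X A B d K r σ W Λ θ κ F) : (θ + r * Λ) / κ ^ 2 ≤ er r Λ θ κ := by
  have h1 := H.rL
  have h2 := H.hθ
  have h3 := H.hΛ
  refine le_trans ?_ H.le_er
  refine div_le_div_of_nonneg_right ?_ (by positivity)
  nlinarith

theorem k2 (H : Tn X A B d K r σ W Λ θ κ F) {x : ℝ} (hx : 0 ≤ x) : x / κ ≤ x / κ ^ 2 := by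
  have h1 := H.hκ
  have h2 := H.hκ1
  refine div_le_div_of_nonneg_left hx (by positivity) ?_
  nlinarith

theorem le_er3 (H : Tn X A B d K r σ W Λ θ κ F) : θ + r * Λ ≤ er r Λ θ κ := by
  have h1 := H.rL
  have h2 := H.hθ
  have h4 := H.hκ
  have h5 := H.hκ1
  refine le_trans ?_ H.le_er2
  rw [le_div_iff₀ (by positivity)]
  have : κ ^ 2 ≤ 1 := pow_le_one₀ h4.le h5
  nlinarith

/-- The plane relation at the samples of the window. -/
theorem rel (H : Tn X A B d K r σ W Λ θ κ F) {ω z : Ω} (hω : B ω) (hz : X.B2 B σ d z)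
    (hw : X.wn z = X.wn ω) :
    |X.sl F 1 ω + X.e (X.pt z) * X.sl F 2 ω - X.nu F z| ≤ W ^ (4 * d + 7) * er r Λ θ κ := by
  have hzB := hz.1.1
  have hωA := H.hBA ω hω
  have hW := H.hB.W0
  have hW1 := H.hB.W1
  have hW6 := H.hB.W600
  have hrΛ := H.rL
  have hθ := H.hθ
  have hκ := H.hκ
  have hκ1 := H.hκ1
  have hΛ := H.hΛ
  have hx : 0 ≤ θ + r * Λ := by linarith
  obtain ⟨r', hr'⟩ : ∃ r', r' = W ^ (d + 4) * (θ + r * Λ) / κ := ⟨_, rfl⟩
  have hrr : r ≤ r' := by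
    rw [hr', le_div_iff₀ hκ]
    have a1 : r ≤ r * Λ := by nlinarith [H.h.r0]
    have a2 : r * κ ≤ r := by nlinarith [H.h.r0]
    have a3 : θ + r * Λ ≤ W ^ (d + 4) * (θ + r * Λ) := by
      have : (1 : ℝ) ≤ W ^ (d + 4) := one_le_pow₀ hW1
      nlinarith
    linarith
  have hr1 : r' ≤ 1 := by
    rw [hr', div_le_one hκ]
    refine le_trans ?_ H.sm
    exact pow_one_term hW6 hx (by omega)
  have h1 := plane H.hB H.h H.hBA H.hF hθ H.hS hz hrr hr1 (ν := X.nu F z)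
    (Or.inr fun z' hz' hp => by
      rw [hr']
      exact nu_fan H.hB H.h H.hBA H.hF hθ H.hS hκ H.hg hz.1 hz' hp) (H.h.s1 ω hωA)
  rw [(po_wn H.h hωA (H.hBA _ hzB) hw).1, H.hF.wn ω z hω hzB hw] at h1
  have hg3 := H.hg ω hω
  have hg0 : X.gr F 3 ω ≠ 0 := by
    intro h0
    rw [h0, abs_zero] at hg3
    linarith
  have e : X.sl F 1 ω + X.e (X.pt z) * X.sl F 2 ω - X.nu F z =
      -((X.gr F 1 ω + X.e (X.pt z) * X.gr F 2 ω + X.nu F z * X.gr F 3 ω) / X.gr F 3 ω) := by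
    unfold Idp.sl
    field_simp
    ring
  rw [e, abs_neg, abs_div]
  have h2 : |X.gr F 1 ω + X.e (X.pt z) * X.gr F 2 ω + X.nu F z * X.gr F 3 ω| / |X.gr F 3 ω| ≤
      W ^ (3 * d + 2) * (θ + r' * Λ) / κ := div_le_div₀ ((abs_nonneg _).trans h1) h1 hκ hg3
  refine h2.trans ?_
  have h3 : θ + r' * Λ ≤ W ^ (d + 5) * ((θ + r * Λ) * Λ / κ) := by
    have a0 : 0 ≤ (θ + r * Λ) * Λ / κ := by positivity
    have a1 : θ ≤ W ^ 0 * ((θ + r * Λ) * Λ / κ) := by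
      rw [pow_zero, one_mul, le_div_iff₀ hκ]
      have b1 : θ * κ ≤ θ := by nlinarith
      have b2 : θ + r * Λ ≤ (θ + r * Λ) * Λ := by nlinarith
      linarith
    have a2 : r' * Λ = W ^ (d + 4) * ((θ + r * Λ) * Λ / κ) := by rw [hr']; ring
    have a3 := pow_two_terms hW6 a0 (a := 0) (b := d + 4) (c := d + 5) (by omega) (by omega)
    have a4 : 0 ≤ W ^ (d + 4) * ((θ + r * Λ) * Λ / κ) := by positivity
    have a5 : 0 ≤ W ^ 0 * ((θ + r * Λ) * Λ / κ) := by positivity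
    linarith
  calc W ^ (3 * d + 2) * (θ + r' * Λ) / κ ≤
        W ^ (3 * d + 2) * (W ^ (d + 5) * ((θ + r * Λ) * Λ / κ)) / κ := by
        refine div_le_div_of_nonneg_right ?_ hκ.le
        exact mul_le_mul_of_nonneg_left h3 (by positivity)
    _ = W ^ (4 * d + 7) * ((θ + r * Λ) * Λ / κ ^ 2) := by
        have e1 : W ^ (4 * d + 7) = W ^ (3 * d + 2) * W ^ (d + 5) := by
          rw [← pow_add]
          congr 1
          ring
        rw [e1]
        field_simp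
    _ ≤ W ^ (4 * d + 7) * er r Λ θ κ := mul_le_mul_of_nonneg_left H.le_er (by positivity)

/-- The slopes are functions of the window. -/
theorem sl_wn (H : Tn X A B d K r σ W Λ θ κ F) {ω ω' : Ω} (hω : X.nx B σ d ω)
    (hω' : X.nx B σ d ω') (hw : X.wn ω' = X.wn ω) :
    |X.sl F 1 ω' - X.sl F 1 ω| ≤ W ^ (4 * d + 10) * er r Λ θ κ ∧
    |X.sl F 2 ω' - X.sl F 2 ω| ≤ W ^ (4 * d + 10) * er r Λ θ κ := by
  obtain ⟨hω2, y, hy, hsep⟩ := hω
  have hωB := hω2.1.1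
  have hωB' := hω'.1.1.1
  have hW := H.hB.W0
  have hW1 := H.hB.W1
  have hW6 := H.hB.W600
  have hK0 := H.hB.K0
  have he0 := H.er0
  obtain ⟨b, hb⟩ : ∃ b, b = W ^ (4 * d + 7) * er r Λ θ κ := ⟨_, rfl⟩
  have hb0 : 0 ≤ b := by rw [hb]; positivity
  have key : ∀ k ≤ 1, |(X.sl F 1 ω' - X.sl F 1 ω) +
      X.e (X.pt (y k)) * (X.sl F 2 ω' - X.sl F 2 ω)| ≤ 2 * b := by
    intro k hk
    obtain ⟨hyB, hyw⟩ := hy k hk
    have h1 := H.rel hωB hyB hyw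
    have h2 := H.rel hωB' hyB (hyw.trans hw.symm)
    rw [← hb] at h1 h2
    have e : (X.sl F 1 ω' - X.sl F 1 ω) + X.e (X.pt (y k)) * (X.sl F 2 ω' - X.sl F 2 ω) =
        (X.sl F 1 ω' + X.e (X.pt (y k)) * X.sl F 2 ω' - X.nu F (y k)) -
        (X.sl F 1 ω + X.e (X.pt (y k)) * X.sl F 2 ω - X.nu F (y k)) := by ring
    rw [e]
    exact (abs_sub _ _).trans (by linarith)
  have hs := hsep 0 (by norm_num) 1 le_rfl (by norm_num)
  have he := H.h.e _ (H.hBA _ (hy 0 (by norm_num)).1.1.1)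
  have h2 : 2 / σ ≤ W := by
    refine le_trans ?_ H.hB.sK
    refine div_le_div_of_nonneg_right ?_ H.hB.s0.le
    linarith [H.hB.K1]
  obtain ⟨hb2, hb1⟩ := two_forms H.hB.s0 h2 he hs (key 0 (by norm_num)) (key 1 le_rfl)
  have e1 : W ^ (4 * d + 10) * er r Λ θ κ = W ^ 3 * b := by
    rw [hb, ← mul_assoc, ← pow_add]
    congr 2
    ring
  rw [e1]
  constructor
  · refine hb1.trans ?_
    have hKW : (1 + K * W) * 2 ≤ W ^ 3 := by
      have h7 := H.hB.K600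
      have h8 : K * W ≤ W ^ 2 := by nlinarith
      have h9 : W ^ 2 * 600 ≤ W ^ 3 := by nlinarith [sq_nonneg W]
      nlinarith
    nlinarith
  · refine hb2.trans ?_
    have hKW : W * 2 ≤ W ^ 3 := by nlinarith [sq_nonneg W]
    nlinarith

/-- The slopes are functions of the point. -/
theorem sl_pt (H : Tn X A B d K r σ W Λ θ κ F) (i : Fin 4) {ω ω' : Ω} (hω : B ω)
    (hω' : B ω') (hp : X.pt ω' = X.pt ω) :
    |X.sl F i ω' - X.sl F i ω| ≤ W ^ (2 * d + 4) * er r Λ θ κ := by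
  have h1 := gr_pt H.hB H.h H.hBA H.hF i hω hω' hp
  have h2 := gr_pt H.hB H.h H.hBA H.hF 3 hω hω' hp
  have h3 := gr_le H.hB H.h H.hBA H.hF i hω'
  have hW := H.hB.W0
  have hW1 := H.hB.W1
  have hW6 := H.hB.W600
  have hΛ := H.hΛ
  have hr0 := H.h.r0
  have hκ := H.hκ
  have hθ := H.hθ
  have h4 : (1 : ℝ) ≤ W ^ (d + 1) * Λ := by
    have : (1 : ℝ) ≤ W ^ (d + 1) := one_le_pow₀ hW1
    nlinarith
  have h5 := quot_sub H.hκ H.hκ1 h4 (H.hg ω hω) (H.hg ω' hω') h1 h2 h3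
  have e : X.sl F i ω' - X.sl F i ω =
      -(X.gr F i ω' / X.gr F 3 ω' - X.gr F i ω / X.gr F 3 ω) := by
    unfold Idp.sl
    ring
  rw [e, abs_neg]
  refine h5.trans ?_
  have e2 : 2 * (W ^ (d + 1) * Λ * (W ^ (d + 2) * (r * Λ)) / κ ^ 2) =
      2 * (W ^ (2 * d + 3) * (r * Λ ^ 2 / κ ^ 2)) := by
    have e3 : W ^ (2 * d + 3) = W ^ (d + 1) * W ^ (d + 2) := by
      rw [← pow_add]
      congr 1
      ring
    rw [e3]
    ring
  rw [e2]
  have h6 : r * Λ ^ 2 / κ ^ 2 ≤ er r Λ θ κ := by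
    unfold er
    refine div_le_div_of_nonneg_right ?_ (by positivity)
    have : r ≤ r * Λ := by nlinarith
    refine mul_le_mul_of_nonneg_right ?_ (by positivity)
    linarith
  have h7 : 0 ≤ W ^ (2 * d + 3) * er r Λ θ κ := mul_nonneg (by positivity) H.er0
  calc 2 * (W ^ (2 * d + 3) * (r * Λ ^ 2 / κ ^ 2)) ≤ 2 * (W ^ (2 * d + 3) * er r Λ θ κ) := by
        refine mul_le_mul_of_nonneg_left ?_ (by norm_num)
        exact mul_le_mul_of_nonneg_left h6 (by positivity)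
    _ ≤ W * (W ^ (2 * d + 3) * er r Λ θ κ) := mul_le_mul_of_nonneg_right (by linarith) h7
    _ = W ^ (2 * d + 4) * er r Λ θ κ := by ring

/-- The line in the tangent plane. -/
theorem sl_line (H : Tn X A B d K r σ W Λ θ κ F) {ω : Ω} (hω : X.B1 B σ d ω) :
    |X.D ω 2 - X.sl F 0 ω - X.sl F 1 ω * X.D ω 0 - X.sl F 2 ω * X.D ω 1| ≤
      W ^ (d + 2) * er r Λ θ κ := by
  have h1 := gr_line H.hB H.h H.hBA H.hF H.hθ H.hS hω
  have hg3 := H.hg ω hω.1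
  have hκ := H.hκ
  have hW := H.hB.W0
  have hg0 : X.gr F 3 ω ≠ 0 := by
    intro h0
    rw [h0, abs_zero] at hg3
    linarith
  have e : X.D ω 2 - X.sl F 0 ω - X.sl F 1 ω * X.D ω 0 - X.sl F 2 ω * X.D ω 1 =
      (X.gr F 0 ω + X.D ω 0 * X.gr F 1 ω + X.D ω 1 * X.gr F 2 ω + X.D ω 2 * X.gr F 3 ω) /
        X.gr F 3 ω := by
    unfold Idp.sl
    field_simp
    ring
  rw [e, abs_div]
  have h2 : |X.gr F 0 ω + X.D ω 0 * X.gr F 1 ω + X.D ω 1 * X.gr F 2 ω + X.D ω 2 * X.gr F 3 ω| /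
      |X.gr F 3 ω| ≤ W ^ (d + 2) * θ / κ := div_le_div₀ ((abs_nonneg _).trans h1) h1 hκ hg3
  refine h2.trans ?_
  have h3 : θ / κ ≤ er r Λ θ κ := by
    refine (H.k2 H.hθ).trans (le_trans ?_ H.le_er2)
    refine div_le_div_of_nonneg_right ?_ (by positivity)
    linarith [H.rL]
  calc W ^ (d + 2) * θ / κ = W ^ (d + 2) * (θ / κ) := by ring
    _ ≤ _ := mul_le_mul_of_nonneg_left h3 (by positivity)

end Tn

end Pool.DICI
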