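import Pool.Agent.H18.DICI.Geo

/-!
# Labels with small derivatives in the last variable

If all derivatives of a label in the last variable are small at the samples, then the label is
small, outside exceptional events.
-/

set_option autoImplicit false

namespace Pool.DICI

open MvPolynomial Finset

variable {Ω U V : Type}

namespace Idp

variable {X : Idp Ω U V} {A B : Ω → Prop} {d : ℕ} {K r σ W Λ θ : ℝ}

/-- Iterated subevents. -/
def nxs (X : Idp Ω U V) (σ : ℝ) (d : ℕ) : ℕ → (Ω → Prop) → Ω → Prop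
  | 0, B => B
  | j + 1, B => nxs X σ d j (X.nx B σ d)

theorem nxs_sub (X : Idp Ω U V) (σ : ℝ) (d : ℕ) : ∀ (j : ℕ) (B : Ω → Prop) (ω : Ω),
    X.nxs σ d j B ω → B ω
  | 0, _, _, h => h
  | j + 1, B, ω, h => nx_sub (nxs_sub X σ d j (X.nx B σ d) ω h)

theorem nxs_add (X : Idp Ω U V) (σ : ℝ) (d : ℕ) : ∀ (a b : ℕ) (B : Ω → Prop),
    X.nxs σ d (a + b) B = X.nxs σ d b (X.nxs σ d a B)
  | 0, b, B => by rw [zero_add]; rfl
  | a + 1, b, B => by
    rw [add_right_comm]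
    exact nxs_add X σ d a b (X.nx B σ d)

theorem nxs_succ (X : Idp Ω U V) (σ : ℝ) (d j : ℕ) (B : Ω → Prop) :
    X.nxs σ d (j + 1) B = X.nx (X.nxs σ d j B) σ d := nxs_add X σ d j 1 B

end Idp

open Idp

variable {X : Idp Ω U V} {A B B' : Ω → Prop} {d : ℕ} {K r σ W Λ θ : ℝ} {F : Ω → P4}

theorem Idp.Lb.sub (h : X.Lb B d Λ F) (hs : ∀ ω, B' ω → B ω) : X.Lb B' d Λ F where
  pt ω ω' h1 h2 := h.pt ω ω' (hs ω h1) (hs ω' h2)
  wn ω ω' h1 h2 := h.wn ω ω' (hs ω h1) (hs ω' h2)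
  dg ω h1 := h.dg ω (hs ω h1)
  nm ω h1 := h.nm ω (hs ω h1)

theorem Idp.Lb.pd (h : X.Lb B d Λ F) (hW : (d : ℝ) ≤ W) (i : Fin 4) :
    X.Lb B d (W * Λ) (fun ω => pderiv i (F ω)) where
  pt ω ω' h1 h2 hp := by simp only [h.pt ω ω' h1 h2 hp]
  wn ω ω' h1 h2 hp := by simp only [h.wn ω ω' h1 h2 hp]
  dg ω h1 := totalDegree_pd' (h.dg ω h1) i
  nm ω h1 := (nm_pd (h.dg ω h1) i).trans (mul_le_mul hW (h.nm ω h1) (nm_nonneg _)
    ((Nat.cast_nonneg d).trans hW))

theorem Idp.Lb.fr (h : X.Lb B d Λ F) (j : Fin 4) : X.Lb B d Λ (fun ω => fr j (F ω)) where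
  pt ω ω' h1 h2 hp := by simp only [h.pt ω ω' h1 h2 hp]
  wn ω ω' h1 h2 hp := by simp only [h.wn ω ω' h1 h2 hp]
  dg ω h1 := totalDegree_fr (h.dg ω h1) j
  nm ω h1 := (nm_fr_le j _).trans (h.nm ω h1)

theorem Big.d1 (hB : Big d K σ W) : (d : ℝ) ≤ W := by
  have := hB.d3
  have h0 : (0 : ℝ) ≤ d := Nat.cast_nonneg d
  linarith

theorem Big.W600 (hB : Big d K σ W) : 600 ≤ W := by
  have := hB.d3
  have h0 : (0 : ℝ) ≤ d := Nat.cast_nonneg d
  linarith

/-- Sum of two terms. -/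
theorem pow_two_terms {W x : ℝ} (hW : 600 ≤ W) (hx : 0 ≤ x) {a b c : ℕ} (ha : a < c)
    (hb : b < c) : 100 * (W ^ a * x) + 100 * (W ^ b * x) ≤ W ^ c * x := by
  have hW1 : 1 ≤ W := by linarith
  obtain ⟨k, rfl⟩ : ∃ k, c = k + 1 := ⟨c - 1, by omega⟩
  have h1 : W ^ a * x ≤ W ^ k * x :=
    mul_le_mul_of_nonneg_right (pow_le_pow_right₀ hW1 (by omega)) hx
  have h2 : W ^ b * x ≤ W ^ k * x :=
    mul_le_mul_of_nonneg_right (pow_le_pow_right₀ hW1 (by omega)) hx
  have h3 : 0 ≤ W ^ k * x := by positivity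
  calc _ ≤ 600 * (W ^ k * x) := by linarith
    _ ≤ W * (W ^ k * x) := mul_le_mul_of_nonneg_right hW h3
    _ = W ^ (k + 1) * x := by ring

theorem pow_one_term {W x : ℝ} (hW : 600 ≤ W) (hx : 0 ≤ x) {a c : ℕ} (ha : a ≤ c) :
    W ^ a * x ≤ W ^ c * x :=
  mul_le_mul_of_nonneg_right (pow_le_pow_right₀ (by linarith) ha) hx

/-- **No vertical equation.** -/
theorem vert_iter (hB : Big d K σ W) (h : X.Ok A K r) : ∀ (j : ℕ) (B : Ω → Prop)
    (F : Ω → P4) (Λ θ : ℝ), (∀ ω, B ω → A ω) → X.Lb B d Λ F →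
    (∀ ω, B ω → (F ω).totalDegree ≤ j) → (∀ ω, B ω → Free 3 (F ω)) → 0 ≤ θ → X.Sm B F θ →
    ∀ ω, X.nxs σ d j B ω → nm (F ω) ≤ W ^ (j * (4 * d + 8)) * (θ + r * Λ) := by
  intro j
  induction j with
  | zero =>
    intro B F Λ θ hBA hF hj _ hθ hS ω hω
    have hω' : B ω := hω
    have h1 : (F ω).totalDegree = 0 := Nat.le_zero.1 (hj ω hω')
    have h2 := totalDegree_eq_zero_iff_eq_C.1 h1
    have h3 := hS ω hω'
    have hΛ : 0 ≤ Λ := (nm_nonneg _).trans (hF.nm ω hω')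
    have hrΛ : 0 ≤ r * Λ := mul_nonneg h.r0 hΛ
    rw [h2, eval_C] at h3
    rw [h2, nm_C, zero_mul, pow_zero, one_mul]
    linarith
  | succ j ih =>
    intro B F Λ θ hBA hF hj hfr hθ hS ω hω
    have hωB := nxs_sub X σ d (j + 1) B ω hω
    have hΛ : 0 ≤ Λ := (nm_nonneg _).trans (hF.nm ω hωB)
    have hrΛ : 0 ≤ r * Λ := mul_nonneg h.r0 hΛ
    have hW0 := hB.W0
    have hW6 := hB.W600
    have hx : 0 ≤ θ + r * Λ := by linarith
    obtain ⟨c, hc⟩ : ∃ c, c = j * (4 * d + 8) := ⟨_, rfl⟩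
    have key : ∀ i, nm (pderiv i (F ω)) ≤ W ^ (c + 3 * d + 6) * (θ + r * Λ) := by
      intro i
      have h1 := ih (X.nx B σ d) (fun ω => pderiv i (F ω)) (W * Λ)
        (W ^ (3 * d + 5) * (θ + r * Λ)) (fun ω hω => hBA ω (nx_sub hω))
        ((hF.pd hB.d1 i).sub fun ω hω => nx_sub hω)
        (fun ω hω => (totalDegree_pd (hj ω (nx_sub hω)) i).trans (by omega))
        (fun ω hω => (hfr ω (nx_sub hω)).pd i) (by positivity) (vert hB h hBA hF hfr hθ hS i) ω hω
      rw [← hc] at h1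
      refine h1.trans ?_
      have h2 : W ^ (3 * d + 5) * (θ + r * Λ) + r * (W * Λ) ≤ W ^ (3 * d + 6) * (θ + r * Λ) := by
        have h3 := pow_two_terms hW6 hx (a := 3 * d + 5) (b := 1) (c := 3 * d + 6) (by omega)
          (by omega)
        have h4 : r * (W * Λ) ≤ W ^ 1 * (θ + r * Λ) := by
          rw [pow_one]
          nlinarith
        have h5 : 0 ≤ W ^ (3 * d + 5) * (θ + r * Λ) := by positivity
        have h6 : 0 ≤ W ^ 1 * (θ + r * Λ) := by positivity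
        linarith
      calc _ ≤ W ^ c * (W ^ (3 * d + 6) * (θ + r * Λ)) :=
            mul_le_mul_of_nonneg_left h2 (by positivity)
        _ = _ := by rw [← mul_assoc, ← pow_add]; congr 2
    have hK2 : (1 : ℝ) ≤ 2 * K := by linarith [hB.K1]
    have h1 := nm_le_of_pd hK2 (po_le h hB.K1 (hBA ω hωB) (h.s1 ω (hBA ω hωB)))
      (hF.dg ω hωB) key
    have h2 := hS ω hωB
    have h3 : (2 * K) ^ d ≤ W ^ d := pow_le_pow_left₀ (by linarith) (by linarith [hB.K600, hB.K1]) _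
    have h4 : (1 : ℝ) ≤ W ^ d := one_le_pow₀ hB.W1
    have h5 : 0 ≤ W ^ (c + 3 * d + 6) * (θ + r * Λ) := by positivity
    have h6 : ((2 * K) ^ d + 1) * (((4 : ℕ) : ℝ) * (W ^ (c + 3 * d + 6) * (θ + r * Λ))) ≤
        8 * (W ^ (c + 4 * d + 6) * (θ + r * Λ)) := by
      have e : W ^ (c + 4 * d + 6) * (θ + r * Λ) = W ^ d * (W ^ (c + 3 * d + 6) * (θ + r * Λ)) := by
        rw [← mul_assoc, ← pow_add]
        congr 2
        ring
      rw [e]
      push_cast
      nlinarith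
    have h7 := pow_two_terms hW6 hx (a := c + 4 * d + 6) (b := 0) (c := c + 4 * d + 8)
      (by omega) (by omega)
    have h8 : 0 ≤ W ^ (c + 4 * d + 6) * (θ + r * Λ) := by positivity
    have e2 : (j + 1) * (4 * d + 8) = c + 4 * d + 8 := by rw [hc]; ring
    rw [e2]
    rw [pow_zero, one_mul] at h7
    linarith

/-- Number of iterations. -/
def mj : ℕ → ℕ
  | 0 => 0
  | j + 1 => mj j + (j + 1)

/-- **Labels all of whose derivatives in the last variable are small.** -/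
theorem all_iter (hB : Big d K σ W) (h : X.Ok A K r) : ∀ (j : ℕ), j ≤ d → ∀ (B : Ω → Prop)
    (F : Ω → P4) (Λ θ : ℝ), (∀ ω, B ω → A ω) → X.Lb B d Λ F →
    (∀ ω, B ω → (F ω).totalDegree ≤ j) → 0 ≤ θ →
    (∀ k ≤ j, X.Sm B (fun ω => (pderiv 3)^[k] (F ω)) θ) →
    ∀ ω, X.nxs σ d (mj j) B ω →
      nm (F ω) ≤ W ^ (j * ((d + 1) * (4 * d + 8) + d + 4)) * (θ + r * Λ) := by
  intro j
  induction j with
  | zero =>
    intro _ B F Λ θ hBA hF hj hθ hS ω hω
    have hω' : B ω := hω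
    have h1 : (F ω).totalDegree = 0 := Nat.le_zero.1 (hj ω hω')
    have h2 := totalDegree_eq_zero_iff_eq_C.1 h1
    have h3 := hS 0 le_rfl ω hω'
    have hΛ : 0 ≤ Λ := (nm_nonneg _).trans (hF.nm ω hω')
    have hrΛ : 0 ≤ r * Λ := mul_nonneg h.r0 hΛ
    simp only [Function.iterate_zero, id_eq] at h3
    rw [h2, eval_C] at h3
    rw [h2, nm_C, zero_mul, pow_zero, one_mul]
    linarith
  | succ j ih =>
    intro hjd B F Λ θ hBA hF hj hθ hS ω hω
    have hω1 : X.nxs σ d (j + 1) (X.nxs σ d (mj j) B) ω := by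
      rw [← nxs_add]
      exact hω
    have hωB := nxs_sub X σ d _ B ω hω
    have hΛ : 0 ≤ Λ := (nm_nonneg _).trans (hF.nm ω hωB)
    have hrΛ : 0 ≤ r * Λ := mul_nonneg h.r0 hΛ
    have hW0 := hB.W0
    have hW6 := hB.W600
    have hx : 0 ≤ θ + r * Λ := by linarith
    obtain ⟨c, hc⟩ : ∃ c, c = j * ((d + 1) * (4 * d + 8) + d + 4) := ⟨_, rfl⟩
    -- the derivative
    have hD : ∀ ω, X.nxs σ d (mj j) B ω →
        nm (pderiv 3 (F ω)) ≤ W ^ (c + 1) * (θ + r * Λ) := by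
      intro ω hω
      have h1 := ih (by omega) B (fun ω => pderiv 3 (F ω)) (W * Λ) θ hBA (hF.pd hB.d1 3)
        (fun ω hω => (totalDegree_pd (hj ω hω) 3).trans (by omega)) hθ (fun k hk => by
          have := hS (k + 1) (by omega)
          simpa only [Function.iterate_succ, Function.comp] using this) ω hω
      rw [← hc] at h1
      refine h1.trans ?_
      have h4 : θ + r * (W * Λ) ≤ W * (θ + r * Λ) := by
        have : θ ≤ W * θ := by nlinarith
        nlinarith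
      calc _ ≤ W ^ c * (W * (θ + r * Λ)) := mul_le_mul_of_nonneg_left h4 (by positivity)
        _ = _ := by ring
    -- the free part at the samples
    have hfs : X.Sm (X.nxs σ d (mj j) B) (fun ω => Pool.DICI.fr 3 (F ω))
        (W ^ (c + d + 2) * (θ + r * Λ)) := by
      intro ω hω
      have hωB' := nxs_sub X σ d _ B ω hω
      have hωA' := hBA ω hωB'
      have h1 := hS 0 (Nat.zero_le _) ω hωB'
      simp only [Function.iterate_zero, id_eq] at h1
      have hK2 : (1 : ℝ) ≤ 2 * K := by linarith [hB.K1]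
      have hdg : (F ω - Pool.DICI.fr 3 (F ω)).totalDegree ≤ d :=
        (totalDegree_sub _ _).trans (max_le (hF.dg ω hωB') (totalDegree_fr (hF.dg ω hωB') 3))
      have h2 := abs_eval_le hK2 (po_le h hB.K1 hωA' (h.s1 ω hωA')) hdg
      have h3 := (nm_sub_fr 3 (F ω)).trans (hD ω hω)
      have h4 : (2 * K) ^ d ≤ W ^ d :=
        pow_le_pow_left₀ (by linarith) (by linarith [hB.K600, hB.K1]) _
      have h5 : (2 * K) ^ d * nm (F ω - Pool.DICI.fr 3 (F ω)) ≤
          W ^ (c + d + 1) * (θ + r * Λ) := by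
        calc _ ≤ W ^ d * (W ^ (c + 1) * (θ + r * Λ)) :=
              mul_le_mul h4 h3 (nm_nonneg _) (by positivity)
          _ = _ := by
              rw [← mul_assoc, ← pow_add]
              congr 2
              ring
      have h6 := pow_two_terms hW6 hx (a := c + d + 1) (b := 0) (c := c + d + 2)
        (by omega) (by omega)
      rw [pow_zero, one_mul] at h6
      have h8 : 0 ≤ W ^ (c + d + 1) * (θ + r * Λ) := by positivity
      have e : eval (X.po ω (X.s ω)) (Pool.DICI.fr 3 (F ω)) = eval (X.po ω (X.s ω)) (F ω) -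
          eval (X.po ω (X.s ω)) (F ω - Pool.DICI.fr 3 (F ω)) := by
        rw [map_sub]
        ring
      rw [e]
      refine (abs_sub _ _).trans ?_
      linarith
    have h9 := vert_iter hB h (j + 1) (X.nxs σ d (mj j) B) (fun ω => Pool.DICI.fr 3 (F ω)) Λ
      (W ^ (c + d + 2) * (θ + r * Λ)) (fun ω hω => hBA ω (nxs_sub X σ d _ B ω hω))
      ((hF.fr 3).sub fun ω hω => nxs_sub X σ d _ B ω hω)
      (fun ω hω => totalDegree_fr (hj ω (nxs_sub X σ d _ B ω hω)) 3)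
      (fun ω _ => free_fr 3 (F ω)) (by positivity) hfs ω hω1
    have h10 : (j + 1) * (4 * d + 8) ≤ (d + 1) * (4 * d + 8) :=
      Nat.mul_le_mul_right _ (by omega)
    obtain ⟨a, ha⟩ : ∃ a, a = (d + 1) * (4 * d + 8) := ⟨_, rfl⟩
    rw [← ha] at h10
    have h11 : nm (Pool.DICI.fr 3 (F ω)) ≤ W ^ (a + c + d + 3) * (θ + r * Λ) := by
      refine h9.trans ?_
      have h12 : W ^ (c + d + 2) * (θ + r * Λ) + r * Λ ≤ W ^ (c + d + 3) * (θ + r * Λ) := by
        have h6 := pow_two_terms hW6 hx (a := c + d + 2) (b := 0) (c := c + d + 3)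
          (by omega) (by omega)
        rw [pow_zero, one_mul] at h6
        have h8 : 0 ≤ W ^ (c + d + 2) * (θ + r * Λ) := by positivity
        linarith
      calc _ ≤ W ^ a * (W ^ (c + d + 3) * (θ + r * Λ)) :=
            mul_le_mul (pow_le_pow_right₀ hB.W1 h10) h12 (by positivity) (by positivity)
        _ = _ := by
            rw [← mul_assoc, ← pow_add]
            congr 2
            ring
    have h13 := (nm_sub_fr 3 (F ω)).trans (hD ω (nxs_sub X σ d _ _ ω hω1))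
    have h14 : nm (F ω) ≤ nm (Pool.DICI.fr 3 (F ω)) + nm (F ω - Pool.DICI.fr 3 (F ω)) := by
      have := nm_add_le (Pool.DICI.fr 3 (F ω)) (F ω - Pool.DICI.fr 3 (F ω))
      rwa [add_sub_cancel] at this
    have h15 := pow_two_terms hW6 hx (a := a + c + d + 3) (b := c + 1) (c := a + c + d + 4)
      (by omega) (by omega)
    have h16 : 0 ≤ W ^ (a + c + d + 3) * (θ + r * Λ) := by positivity
    have h17 : 0 ≤ W ^ (c + 1) * (θ + r * Λ) := by positivity
    have e2 : (j + 1) * ((d + 1) * (4 * d + 8) + d + 4) = a + c + d + 4 := by rw [hc, ha]; ring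
    rw [e2]
    linarith

end Pool.DICI
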